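import Mathlib

/-!
# The final algebraic computation: the curve has no automorphism besides the obvious ones
-/

set_option autoImplicit false

namespace Pool.Agent.TH729.Gr

/-- `n` is not a square -/
theorem nonsq_rat {n : ℕ} (hn : ¬ IsSquare n) {x y : ℚ} (h : x ^ 2 = n * y ^ 2) :
    x = 0 ∧ y = 0 := by
  by_cases hy : y = 0
  · rw [hy] at h
    refine ⟨?_, hy⟩
    have : x ^ 2 = 0 := by rw [h]; ring
    exact pow_eq_zero_iff two_ne_zero |>.1 this
  · exfalso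
    apply hn
    rw [← Rat.isSquare_natCast_iff]
    refine ⟨x / y, ?_⟩
    field_simp
    linarith

/-- the norm argument -/
theorem norm_arg {s m : ℚ} (hs : 0 < s) (hm : 0 < m) {α β γ δ : ℚ}
    (h1 : γ ^ 2 - s * δ ^ 2 + m * (α ^ 2 - s * β ^ 2) = 0) (h2 : γ * δ + m * (α * β) = 0) :
    γ ^ 2 = m * s * β ^ 2 ∧ s * δ ^ 2 = m * α ^ 2 := by
  have h3 : (γ ^ 2 + s * δ ^ 2) ^ 2 = (m * (α ^ 2 + s * β ^ 2)) ^ 2 := by
    have e1 : γ ^ 2 - s * δ ^ 2 = -(m * (α ^ 2 - s * β ^ 2)) := by linarith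
    have e2 : γ * δ = -(m * (α * β)) := by linarith
    calc (γ ^ 2 + s * δ ^ 2) ^ 2 = (γ ^ 2 - s * δ ^ 2) ^ 2 + 4 * s * (γ * δ) ^ 2 := by ring
      _ = (m * (α ^ 2 + s * β ^ 2)) ^ 2 := by rw [e1, e2]; ring
  have h4 : 0 ≤ γ ^ 2 + s * δ ^ 2 := by positivity
  have h5 : 0 ≤ m * (α ^ 2 + s * β ^ 2) := by positivity
  have h6 : γ ^ 2 + s * δ ^ 2 = m * (α ^ 2 + s * β ^ 2) := by
    rcases sq_eq_sq_iff_eq_or_eq_neg.1 h3 with h | h
    · exact h
    · linarith
  constructor <;> linarith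

/-- a zero of the norm form, in rational terms -/
theorem complex_arg {s : ℕ} (hs : 0 < s) {m : ℚ} {α β γ δ : ℚ}
    (h : (((γ : ℂ) + δ * (Real.sqrt s * Complex.I)) ^ 2 +
      m * ((α : ℂ) + β * (Real.sqrt s * Complex.I)) ^ 2) = 0) :
    γ ^ 2 - s * δ ^ 2 + m * (α ^ 2 - s * β ^ 2) = 0 ∧ γ * δ + m * (α * β) = 0 := by
  have hsq : Real.sqrt s ^ 2 = s := Real.sq_sqrt (Nat.cast_nonneg s)
  have hpos : 0 < Real.sqrt s := Real.sqrt_pos.2 (Nat.cast_pos.2 hs)
  have e : (((γ : ℂ) + δ * (Real.sqrt s * Complex.I)) ^ 2 +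
      m * ((α : ℂ) + β * (Real.sqrt s * Complex.I)) ^ 2) =
      (((γ ^ 2 - s * δ ^ 2 + m * (α ^ 2 - s * β ^ 2) : ℚ) : ℝ) : ℂ) +
      ((2 * Real.sqrt s * ((γ * δ + m * (α * β) : ℚ) : ℝ) : ℝ) : ℂ) * Complex.I := by
    have h1 : ((Real.sqrt s : ℝ) : ℂ) ^ 2 = (s : ℂ) := by
      rw [← Complex.ofReal_pow, hsq]; simp
    push_cast
    linear_combination (Complex.I ^ 2 * (δ ^ 2 + m * β ^ 2)) * h1 +
      ((s : ℂ) * (δ ^ 2 + m * β ^ 2)) * Complex.I_sq
  rw [e] at h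
  have h1 := congrArg Complex.re h
  have h2 := congrArg Complex.im h
  simp only [Complex.add_re, Complex.ofReal_re, Complex.mul_re, Complex.I_re, mul_zero,
    Complex.ofReal_im, Complex.I_im, mul_one, sub_self, add_zero, Complex.zero_re] at h1
  simp only [Complex.add_im, Complex.ofReal_im, Complex.mul_im, Complex.ofReal_re, Complex.I_re,
    Complex.I_im, mul_one, mul_zero, zero_add, Complex.zero_im, add_zero] at h2
  constructor
  · exact_mod_cast h1
  · rcases mul_eq_zero.1 h2 with h3 | h3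
    · exfalso; linarith
    · exact_mod_cast h3

/-- **The curve has no other automorphism.** -/
theorem final_alg {α β γ δ e e' Δ : ℚ} (he : 0 < e) (he' : 0 < e')
    (hΔ : Δ = α * δ - β * γ) (hΔ0 : Δ ≠ 0)
    (h : ∀ x : ℂ, (e : ℂ) * (((γ + δ * x) ^ 2 + (α + β * x) ^ 2) *
      ((γ + δ * x) ^ 2 + 2 * (α + β * x) ^ 2) *
      ((γ + δ * x - (α + β * x)) ^ 2 + 3 * (α + β * x) ^ 2)) =
      Δ ^ 2 * (e' * ((x ^ 2 + 1) * (x ^ 2 + 2) * ((x - 1) ^ 2 + 3)))) :
    β = 0 ∧ γ = 0 ∧ δ = α := by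
  have n2 : ¬ IsSquare 2 := by
    rintro ⟨r, hr⟩
    have : r < 2 := by nlinarith
    interval_cases r <;> omega
  have n3 : ¬ IsSquare 3 := by
    rintro ⟨r, hr⟩
    have : r < 2 := by nlinarith
    interval_cases r <;> omega
  have n6 : ¬ IsSquare 6 := by
    rintro ⟨r, hr⟩
    have : r < 3 := by nlinarith
    interval_cases r <;> omega
  have he0 : (e : ℂ) ≠ 0 := by exact_mod_cast he.ne'
  -- the three factors at `x = √s i`
  have key : ∀ s : ℕ, 0 < s → (s = 1 ∨ s = 2) →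
      (γ ^ 2 = 1 * s * β ^ 2 ∧ s * δ ^ 2 = 1 * α ^ 2) ∨
      (γ ^ 2 = 2 * s * β ^ 2 ∧ s * δ ^ 2 = 2 * α ^ 2) ∨
      ((γ - α) ^ 2 = 3 * s * β ^ 2 ∧ s * (δ - β) ^ 2 = 3 * α ^ 2) := by
    intro s hs hs'
    have hsQ : (0 : ℚ) < s := by exact_mod_cast hs
    have h1 := h (Real.sqrt s * Complex.I)
    have hz : ((Real.sqrt s * Complex.I : ℂ) ^ 2 + 1) * ((Real.sqrt s * Complex.I : ℂ) ^ 2 + 2) =
        0 := by
      have h2 : (Real.sqrt s * Complex.I : ℂ) ^ 2 = -(s : ℂ) := by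
        rw [mul_pow, Complex.I_sq, ← Complex.ofReal_pow, Real.sq_sqrt (Nat.cast_nonneg s)]
        simp
      rw [h2]
      rcases hs' with rfl | rfl <;> simp
    rw [hz, zero_mul, mul_zero, mul_zero, mul_eq_zero, mul_eq_zero, mul_eq_zero] at h1
    rcases h1 with h1 | (h1 | h1) | h1
    · exact absurd h1 he0
    · left
      have h2 := complex_arg (m := 1) (α := α) (β := β) (γ := γ) (δ := δ) hs (by
        push_cast; rw [one_mul]; exact h1)
      exact norm_arg hsQ one_pos h2.1 h2.2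
    · right; left
      have h2 := complex_arg (m := 2) (α := α) (β := β) (γ := γ) (δ := δ) hs (by
        push_cast; exact h1)
      exact norm_arg hsQ two_pos h2.1 h2.2
    · right; right
      have h2 := complex_arg (m := 3) (α := α) (β := β) (γ := γ - α) (δ := δ - β) hs (by
        push_cast
        rw [← h1]
        ring)
      exact norm_arg hsQ (by norm_num) h2.1 h2.2
  have hαβ : ¬ (α = 0 ∧ β = 0) := by
    rintro ⟨h1, h2⟩
    apply hΔ0
    rw [hΔ, h1, h2]; ring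
  -- `s = 1`
  have s1 : γ ^ 2 = β ^ 2 ∧ δ ^ 2 = α ^ 2 := by
    rcases key 1 one_pos (Or.inl rfl) with ⟨h1, h2⟩ | ⟨h1, h2⟩ | ⟨h1, h2⟩
    · push_cast at h1 h2
      constructor <;> linarith
    · exfalso
      push_cast at h1 h2
      have h3 := nonsq_rat n2 (x := γ) (y := β) (by push_cast; linarith)
      have h4 := nonsq_rat n2 (x := δ) (y := α) (by push_cast; linarith)
      exact hαβ ⟨h4.2, h3.2⟩
    · exfalso
      push_cast at h1 h2
      have h3 := nonsq_rat n3 (x := γ - α) (y := β) (by push_cast; linarith)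
      have h4 := nonsq_rat n3 (x := δ - β) (y := α) (by push_cast; linarith)
      exact hαβ ⟨h4.2, h3.2⟩
  -- `s = 2`
  have s2 : γ ^ 2 = 4 * β ^ 2 := by
    rcases key 2 two_pos (Or.inr rfl) with ⟨h1, h2⟩ | ⟨h1, h2⟩ | ⟨h1, h2⟩
    · exfalso
      push_cast at h1 h2
      have h3 := nonsq_rat n2 (x := γ) (y := β) (by push_cast; linarith)
      have h4 := nonsq_rat n2 (x := α) (y := δ) (by push_cast; linarith)
      exact hαβ ⟨h4.1, h3.2⟩
    · push_cast at h1 h2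
      linarith
    · exfalso
      push_cast at h1 h2
      have h3 := nonsq_rat n6 (x := γ - α) (y := β) (by push_cast; linarith)
      have h4 := nonsq_rat n6 (x := 2 * (δ - β)) (y := α) (by push_cast; nlinarith)
      exact hαβ ⟨h4.2, h3.2⟩
  have hβ : β = 0 := by
    have : β ^ 2 = 0 := by linarith [s1.1]
    exact pow_eq_zero_iff two_ne_zero |>.1 this
  have hγ : γ = 0 := by
    have : γ ^ 2 = 0 := by rw [s1.1, hβ]; ring
    exact pow_eq_zero_iff two_ne_zero |>.1 this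
  refine ⟨hβ, hγ, ?_⟩
  rcases sq_eq_sq_iff_eq_or_eq_neg.1 s1.2 with h1 | h1
  · exact h1
  · exfalso
    have hα : α ≠ 0 := fun h0 => hαβ ⟨h0, hβ⟩
    rw [hβ, hγ, h1] at h hΔ
    have h0 := h 0
    have h2 := h 1
    have h0' : e * ((1 * α ^ 2) * (2 * α ^ 2) * (4 * α ^ 2)) = Δ ^ 2 * (e' * 8) := by
      have : ((e * ((1 * α ^ 2) * (2 * α ^ 2) * (4 * α ^ 2)) : ℚ) : ℂ) =
          ((Δ ^ 2 * (e' * 8) : ℚ) : ℂ) := by
        push_cast at h0 ⊢
        linear_combination h0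
      exact_mod_cast this
    have h2' : e * ((2 * α ^ 2) * (3 * α ^ 2) * (7 * α ^ 2)) = Δ ^ 2 * (e' * 18) := by
      have : ((e * ((2 * α ^ 2) * (3 * α ^ 2) * (7 * α ^ 2)) : ℚ) : ℂ) =
          ((Δ ^ 2 * (e' * 18) : ℚ) : ℂ) := by
        push_cast at h2 ⊢
        linear_combination h2
      exact_mod_cast this
    have h3 : e * α ^ 6 = 0 := by linarith
    exact (mul_ne_zero he.ne' (pow_ne_zero 6 hα)) h3

end Pool.Agent.TH729.Gr
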