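import Pool.Agent.TH729.Gr.Multi

/-!
# Multiquadratic extensions: spanning and automorphisms
-/

set_option autoImplicit false

namespace Pool.Agent.TH729.Gr

open MvPolynomial WithZero

variable {V : Type} {I : Type}

/-- products stay in the span -/
theorem span_mul [DecidableEq I] (d : I → A V) (J : Set I) {x y : Om V}
    (hx : x ∈ Submodule.span (F V) (rS d '' {S | (S : Set I) ⊆ J}))
    (hy : y ∈ Submodule.span (F V) (rS d '' {S | (S : Set I) ⊆ J})) :
    x * y ∈ Submodule.span (F V) (rS d '' {S | (S : Set I) ⊆ J}) := by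
  induction hx using Submodule.span_induction with
  | zero => rw [zero_mul]; exact Submodule.zero_mem _
  | add x x' _ _ h h' => rw [add_mul]; exact Submodule.add_mem _ h h'
  | smul a x _ h => rw [smul_mul_assoc]; exact Submodule.smul_mem _ _ h
  | mem x hx =>
    obtain ⟨S, hS, rfl⟩ := hx
    induction hy using Submodule.span_induction with
    | zero => rw [mul_zero]; exact Submodule.zero_mem _
    | add x x' _ _ h h' => rw [mul_add]; exact Submodule.add_mem _ h h'
    | smul a x _ h => rw [mul_smul_comm]; exact Submodule.smul_mem _ _ h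
    | mem y hy =>
      obtain ⟨T, hT, rfl⟩ := hy
      rw [rS_mul, ← k_j, ← Algebra.smul_def]
      refine Submodule.smul_mem _ _ (Submodule.subset_span ⟨_, ?_, rfl⟩)
      intro i hi
      rw [Finset.mem_coe, Finset.mem_symmDiff] at hi
      rcases hi with ⟨h, -⟩ | ⟨h, -⟩
      · exact hS h
      · exact hT h

/-- the elements of the field generated by some of the square roots -/
theorem mem_span_of_mem_adjoin [DecidableEq I] (d : I → A V) (J : Set I) {z : Om V}
    (hz : z ∈ IntermediateField.adjoin (F V) (r d '' J)) :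
    z ∈ Submodule.span (F V) (rS d '' {S | (S : Set I) ⊆ J}) := by
  have h1 : z ∈ Algebra.adjoin (F V) (r d '' J) := by
    rw [← IntermediateField.adjoin_toSubalgebra]
    exact hz
  induction h1 using Algebra.adjoin_induction with
  | mem x hx =>
    obtain ⟨i, hi, rfl⟩ := hx
    refine Submodule.subset_span ⟨{i}, ?_, ?_⟩
    · show (({i} : Finset I) : Set I) ⊆ J
      simpa using hi
    · rw [rS, Finset.prod_singleton]
  | algebraMap a =>
    have h : algebraMap (F V) (Om V) a = a • rS d ∅ := by
      rw [rS, Finset.prod_empty, Algebra.algebraMap_eq_smul_one]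
    rw [h]
    refine Submodule.smul_mem _ _ (Submodule.subset_span ⟨∅, ?_, rfl⟩)
    show ((∅ : Finset I) : Set I) ⊆ J
    simp
  | add x y hx hy h1 h2 =>
    have e : ∀ {x : Om V}, x ∈ Algebra.adjoin (F V) (r d '' J) →
        x ∈ IntermediateField.adjoin (F V) (r d '' J) := by
      intro x hx
      rw [← IntermediateField.adjoin_toSubalgebra] at hx
      exact hx
    exact Submodule.add_mem _ (h1 (e hx)) (h2 (e hy))
  | mul x y hx hy h1 h2 =>
    have e : ∀ {x : Om V}, x ∈ Algebra.adjoin (F V) (r d '' J) →
        x ∈ IntermediateField.adjoin (F V) (r d '' J) := by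
      intro x hx
      rw [← IntermediateField.adjoin_toSubalgebra] at hx
      exact hx
    exact span_mul d J (h1 (e hx)) (h2 (e hy))

/-- the same with coordinates -/
theorem exists_coord [DecidableEq I] (d : I → A V) (J : Set I) {z : Om V}
    (hz : z ∈ IntermediateField.adjoin (F V) (r d '' J)) :
    ∃ c : Finset I →₀ F V, z = Φ d c ∧ ∀ S ∈ c.support, (S : Set I) ⊆ J := by
  have h := mem_span_of_mem_adjoin d J hz
  rw [Finsupp.mem_span_image_iff_linearCombination] at h
  obtain ⟨c, hc, h⟩ := h
  exact ⟨c, h.symm, fun S hS => hc hS⟩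

theorem Φ_single (d : I → A V) (S : Finset I) (x : F V) :
    Φ d (Finsupp.single S x) = k x * rS d S := by
  rw [Φ, Finsupp.linearCombination_single, Algebra.smul_def]

instance : IsAlgClosure (F V) (Om V) := ⟨inferInstance, inferInstance⟩

/-- sign changes of one square root -/
theorem exists_aut [DecidableEq I] {d : I → A V} (hd : Good d) (i : I) :
    ∃ σ : Om V ≃ₐ[F V] Om V, σ (r d i) = - r d i ∧ ∀ i', i' ≠ i → σ (r d i') = r d i' := by
  classical
  let E : IntermediateField (F V) (Om V) := IntermediateField.adjoin (F V) (r d '' {i' | i' ≠ i})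
  have hi : r d i ∉ E := by
    intro h
    obtain ⟨c, hc, hs⟩ := exists_coord d _ h
    have h1 : r d i = Φ d (Finsupp.single {i} 1) := by
      rw [Φ_single, map_one, one_mul, rS, Finset.prod_singleton]
    rw [h1] at hc
    have h2 := Φ_inj hd hc
    have h3 := hs {i} (by rw [← h2, Finsupp.mem_support_iff, Finsupp.single_eq_same]; simp)
    have h4 := h3 (Finset.mem_coe.2 (Finset.mem_singleton_self i))
    exact h4 rfl
  have : IsGalois E (Om V) := inferInstance
  have h1 : r d i ∉ (⊥ : IntermediateField E (Om V)) := by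
    intro h
    rw [IntermediateField.mem_bot] at h
    obtain ⟨y, hy⟩ := h
    apply hi
    rw [← hy]
    exact y.2
  rw [InfiniteGalois.mem_bot_iff_fixed] at h1
  push Not at h1
  obtain ⟨σ, hσ⟩ := h1
  refine ⟨σ.restrictScalars (F V), ?_, ?_⟩
  · show σ (r d i) = - r d i
    have h2 : σ (r d i) ^ 2 = r d i ^ 2 := by
      rw [← map_pow, r_sq, ← k_j]
      have : k (j (d i)) = algebraMap E (Om V) (algebraMap (F V) E (j (d i))) :=
        IsScalarTower.algebraMap_apply (F V) E (Om V) _
      rw [this]
      exact σ.commutes _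
    rcases sq_eq_sq_iff_eq_or_eq_neg.1 h2 with h | h
    · exact absurd h hσ
    · exact h
  · intro i' hi'
    show σ (r d i') = r d i'
    have hmem : r d i' ∈ E := IntermediateField.subset_adjoin _ _ ⟨i', hi', rfl⟩
    exact σ.commutes (⟨r d i', hmem⟩ : E)

end Pool.Agent.TH729.Gr
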