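import Mathlib

/-!
# Derivations of the algebraic closure of a rational function field
-/

set_option autoImplicit false

namespace Pool.Agent.TH729.Gr

open MvPolynomial

/-- A derivation extends along a formally étale algebra. -/
theorem exists_der {R S T : Type*} [CommRing R] [CommRing S] [CommRing T] [Algebra R S]
    [Algebra S T] [Algebra R T] [IsScalarTower R S T] [Algebra.FormallyEtale S T]
    (d : Derivation R S T) : ∃ D : Derivation R T T, ∀ s, D (algebraMap S T s) = d s := by
  let e := KaehlerDifferential.tensorKaehlerEquivOfFormallyEtale R S T
  let l : TensorProduct S T (Ω[S⁄R]) →ₗ[T] T :=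
    TensorProduct.AlgebraTensorModule.lift
      ((LinearMap.lsmul T (Ω[S⁄R] →ₗ[S] T)).flip d.liftKaehlerDifferential)
  refine ⟨(l.comp e.symm.toLinearMap).compDer (KaehlerDifferential.D R T), fun s => ?_⟩
  show l (e.symm (KaehlerDifferential.D R T (algebraMap S T s))) = d s
  have h := KaehlerDifferential.tensorKaehlerEquivOfFormallyEtale_symm_D_algebraMap R S T s
  rw [h]
  simp [l]

/-- A derivation is determined by its restriction along a formally étale algebra. -/
theorem der_unique {R S T : Type*} [CommRing R] [CommRing S] [CommRing T] [Algebra R S]
    [Algebra S T] [Algebra R T] [IsScalarTower R S T] [Algebra.FormallyEtale S T]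
    (D : Derivation R T T) (hD : ∀ s, D (algebraMap S T s) = 0) (x : T) : D x = 0 := by
  let D' : Derivation S T T :=
    { D with
      map_smul' := fun s x => by
        show D (s • x) = s • D x
        rw [Algebra.smul_def, Derivation.leibniz, hD, smul_zero, add_zero, smul_eq_mul,
          Algebra.smul_def]
      map_one_eq_zero' := D.map_one_eq_zero
      leibniz' := D.leibniz }
  have : Subsingleton (Ω[T⁄S]) := inferInstance
  have h : D' = 0 := by
    have h1 : D'.liftKaehlerDifferential = 0 := by
      refine LinearMap.ext fun y => ?_
      rw [Subsingleton.elim y 0, map_zero, map_zero]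
    rw [← Derivation.liftKaehlerDifferential_comp D', h1]
    ext; simp
  have h2 : D' x = 0 := by rw [h]; rfl
  exact h2

variable (V : Type)

/-- the polynomial ring -/
abbrev A := MvPolynomial V ℚ

/-- its field of fractions -/
def F : Type := FractionRing (A V)

noncomputable instance : Field (F V) := inferInstanceAs (Field (FractionRing (A V)))

noncomputable instance : Algebra (A V) (F V) :=
  inferInstanceAs (Algebra (A V) (FractionRing (A V)))

instance : IsFractionRing (A V) (F V) :=
  inferInstanceAs (IsFractionRing (A V) (FractionRing (A V)))

instance : CharZero (F V) := by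
  refine charZero_of_injective_algebraMap (R := A V) ?_
  exact IsFractionRing.injective (A V) (F V)

instance : IsScalarTower ℚ (A V) (F V) :=
  IsScalarTower.of_algebraMap_eq' (Subsingleton.elim _ _)

/-- the algebraic closure of the latter -/
def Om : Type := AlgebraicClosure (F V)

noncomputable instance : Field (Om V) := inferInstanceAs (Field (AlgebraicClosure (F V)))

noncomputable instance : Algebra (F V) (Om V) :=
  inferInstanceAs (Algebra (F V) (AlgebraicClosure (F V)))

instance : IsAlgClosed (Om V) := inferInstanceAs (IsAlgClosed (AlgebraicClosure (F V)))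

instance : Algebra.IsAlgebraic (F V) (Om V) :=
  inferInstanceAs (Algebra.IsAlgebraic (F V) (AlgebraicClosure (F V)))

noncomputable instance : Algebra (A V) (Om V) :=
  ((algebraMap (F V) (Om V)).comp (algebraMap (A V) (F V))).toAlgebra

instance : IsScalarTower (A V) (F V) (Om V) := IsScalarTower.of_algebraMap_eq' rfl

instance : CharZero (Om V) :=
  charZero_of_injective_algebraMap (R := F V) (algebraMap (F V) (Om V)).injective

instance : IsScalarTower ℚ (A V) (Om V) :=
  IsScalarTower.of_algebraMap_eq' (Subsingleton.elim _ _)

variable {V}

instance : Algebra.FormallyEtale (A V) (F V) :=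
  Algebra.FormallyEtale.of_isLocalization (nonZeroDivisors (A V))

instance : Algebra.FormallyEtale (F V) (Om V) := Algebra.FormallyEtale.of_isSeparable _ _

instance : Algebra.FormallyEtale (A V) (Om V) := Algebra.FormallyEtale.comp (A V) (F V) (Om V)

/-- the embedding of the polynomial ring in the algebraic closure -/
noncomputable abbrev ι : A V →+* Om V := algebraMap (A V) (Om V)

theorem exists_D (v : V) : ∃ D : Derivation ℚ (Om V) (Om V), ∀ p : A V,
    D (ι p) = ι (pderiv v p) := by
  classical
  obtain ⟨D, hD⟩ := exists_der (R := ℚ) (S := A V) (T := Om V)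
    ((Algebra.linearMap (A V) (Om V)).compDer (pderiv v))
  exact ⟨D, fun p => hD p⟩

/-- the derivations `∂/∂x_v` -/
noncomputable def D (v : V) : Derivation ℚ (Om V) (Om V) := (exists_D v).choose

theorem D_ι (v : V) (p : A V) : D v (ι p) = ι (pderiv v p) := (exists_D v).choose_spec p

end Pool.Agent.TH729.Gr
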