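import Pool.Agent.TH729.Gr.IntG

/-!
# The filtration of a multiquadratic extension given by a valuation
-/

set_option autoImplicit false

namespace Pool.Agent.TH729.Gr

open MvPolynomial WithZero

variable {V : Type} {I : Type}

theorem aut_rS [DecidableEq I] {d : I → A V} {i : I} {σ : Om V ≃ₐ[F V] Om V}
    (h1 : σ (r d i) = - r d i) (h2 : ∀ i', i' ≠ i → σ (r d i') = r d i') (U : Finset I) :
    σ (rS d U) = (if i ∈ U then -1 else 1) * rS d U := by
  split_ifs with hU
  · have e : rS d U = r d i * rS d (U.erase i) := (Finset.mul_prod_erase U (r d) hU).symm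
    rw [e, map_mul, h1, rS, map_prod, Finset.prod_congr rfl fun i' hi' =>
      h2 i' (Finset.ne_of_mem_erase hi')]
    ring
  · rw [rS, map_prod, one_mul]
    refine Finset.prod_congr rfl fun i' hi' => h2 i' ?_
    rintro rfl
    exact hU hi'

/-- the terms of an integral element are integral -/
theorem int_coord [DecidableEq I] {d : I → A V} (hd : Good d) {v : Valuation (F V) ℤᵐ⁰}
    (hv : Triv v) : ∀ (n : ℕ) (c : Finset I →₀ F V), c.support.card = n → Int v (Φ d c) →
      ∀ S, Int v (k (c S) * rS d S) := by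
  classical
  intro n
  induction n using Nat.strong_induction_on with
  | _ n ih =>
    intro c hn hc S
    by_cases hsub : c.support ⊆ {S}
    · have h1 := Φ_apply' d c hsub
      rw [Finset.sum_singleton] at h1
      rw [← h1]; exact hc
    · rw [Finset.subset_singleton_iff'] at hsub
      push Not at hsub
      obtain ⟨T, hT, hTS⟩ := hsub
      -- an index which separates `S` and `T`
      obtain ⟨i, hi⟩ : ∃ i, ¬ (i ∈ T ↔ i ∈ S) := by
        by_contra hcon
        push Not at hcon
        exact hTS (Finset.ext hcon)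
      obtain ⟨σ, h1, h2⟩ := exists_aut hd i
      have hσ := aut_rS h1 h2
      have key : k (algebraMap ℚ (F V) (1 / 2)) *
          (Φ d c + (if i ∈ S then -1 else 1) * σ (Φ d c)) =
          Φ d (c.filter fun U => (i ∈ U ↔ i ∈ S)) := by
        have hsupp : (c.filter fun U => (i ∈ U ↔ i ∈ S)).support ⊆ c.support := by
          rw [Finsupp.support_filter]; exact Finset.filter_subset _ _
        rw [Φ_apply' d _ hsupp, Φ_apply, map_sum, Finset.mul_sum, ← Finset.sum_add_distrib,
          Finset.mul_sum]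
        refine Finset.sum_congr rfl fun U _ => ?_
        rw [map_mul, hσ, k_rat]
        have e1 : σ (k (c U)) = k (c U) := σ.commutes _
        have e2 : algebraMap ℚ (Om V) (1 / 2) = 1 / 2 := by
          rw [map_div₀, map_one, map_ofNat]
        rw [e1, e2, Finsupp.filter_apply]
        by_cases hU : i ∈ U <;> by_cases hS : i ∈ S <;> simp [hU, hS] <;> ring
      have hint : Int v (Φ d (c.filter fun U => (i ∈ U ↔ i ∈ S))) := by
        rw [← key]
        refine (int_k (hv.le _)).mul (hc.add (Int.mul ?_ (hc.map σ)))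
        have : Int v (1 : Om V) := by
          rw [← map_one (algebraMap (F V) (Om V))]
          exact int_k (by rw [map_one])
        split_ifs
        · exact this.neg
        · exact this
      have hcard : (c.filter fun U => (i ∈ U ↔ i ∈ S)).support.card < n := by
        rw [← hn, Finsupp.support_filter]
        refine Finset.card_lt_card ⟨Finset.filter_subset _ _, fun h => ?_⟩
        have := (Finset.mem_filter.1 (h hT)).2
        exact hi this
      have h3 := ih _ hcard _ rfl hint S
      rw [Finsupp.filter_apply, if_pos Iff.rfl] at h3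
      exact h3

/-- the coordinates of an integral element -/
theorem coord_le_one [DecidableEq I] {d : I → A V} (hd : Good d) {v : Valuation (F V) ℤᵐ⁰}
    (hv : Triv v) (c : Finset I →₀ F V) (hc : Int v (Φ d c)) (S : Finset I) :
    v (c S ^ 2 * j (dS d S)) ≤ 1 := by
  have h1 := (int_coord hd hv _ c rfl hc S).pow 2
  have h2 : (k (c S) * rS d S) ^ 2 = k (c S ^ 2 * j (dS d S)) := by
    rw [mul_pow, rS_sq, map_mul, map_pow, k_j]
  rw [h2] at h1
  exact h1.of_k

/-- the filtration -/
def Fil (d : I → A V) (v : Valuation (F V) ℤᵐ⁰) (g : ℤᵐ⁰) : Set (Om V) :=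
  {z | ∃ c : Finset I →₀ F V, z = Φ d c ∧ ∀ S, v (c S ^ 2 * j (dS d S)) ≤ g}

variable {d : I → A V} {v : Valuation (F V) ℤᵐ⁰} {g h : ℤᵐ⁰}

theorem Fil.add {x y : Om V} (hx : x ∈ Fil d v g) (hy : y ∈ Fil d v g) : x + y ∈ Fil d v g := by
  obtain ⟨c, rfl, hc⟩ := hx
  obtain ⟨c', rfl, hc'⟩ := hy
  refine ⟨c + c', (map_add _ _ _).symm, fun S => ?_⟩
  rw [map_mul, map_pow, Finsupp.add_apply]
  have h1 := hc S
  have h2 := hc' S
  rw [map_mul, map_pow] at h1 h2
  rcases le_max_iff.1 (v.map_add (c S) (c' S)) with h3 | h3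
  · exact (mul_le_mul_left (pow_le_pow_left₀ zero_le' h3 2) _).trans h1
  · exact (mul_le_mul_left (pow_le_pow_left₀ zero_le' h3 2) _).trans h2

theorem Fil.zero : (0 : Om V) ∈ Fil d v g :=
  ⟨0, (map_zero _).symm, fun S => by simp⟩

theorem Fil.sum {α : Type*} {s : Finset α} {f : α → Om V} (hf : ∀ x ∈ s, f x ∈ Fil d v g) :
    ∑ x ∈ s, f x ∈ Fil d v g := by
  classical
  induction s using Finset.induction_on with
  | empty => rw [Finset.sum_empty]; exact Fil.zero
  | insert a s ha ih =>
    rw [Finset.sum_insert ha]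
    exact Fil.add (hf a (Finset.mem_insert_self _ _))
      (ih fun x hx => hf x (Finset.mem_insert_of_mem hx))

theorem Fil.single {S : Finset I} {a : F V} (ha : v (a ^ 2 * j (dS d S)) ≤ g) :
    k a * rS d S ∈ Fil d v g := by
  classical
  refine ⟨Finsupp.single S a, (Φ_single d S a).symm, fun T => ?_⟩
  rw [Finsupp.single_apply]
  split_ifs with h
  · rw [← h]; exact ha
  · simp

theorem dS_sq_mul [DecidableEq I] (S T : Finset I) :
    dS d (S ∩ T) ^ 2 * dS d (symmDiff S T) = dS d S * dS d T := by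
  apply ι_inj
  calc ι (dS d (S ∩ T) ^ 2 * dS d (symmDiff S T))
      = (ι (dS d (S ∩ T)) * rS d (symmDiff S T)) ^ 2 := by
        rw [map_mul, map_pow, mul_pow, rS_sq]
    _ = (rS d S * rS d T) ^ 2 := by rw [rS_mul]
    _ = ι (dS d S * dS d T) := by rw [mul_pow, rS_sq, rS_sq, map_mul]

theorem Fil.mul {x y : Om V} (hx : x ∈ Fil d v g) (hy : y ∈ Fil d v h) :
    x * y ∈ Fil d v (g * h) := by
  classical
  obtain ⟨c, rfl, hc⟩ := hx
  obtain ⟨c', rfl, hc'⟩ := hy
  rw [Φ_apply, Φ_apply, Finset.sum_mul_sum]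
  refine Fil.sum fun S _ => Fil.sum fun T _ => ?_
  have e : k (c S) * rS d S * (k (c' T) * rS d T) =
      k (c S * c' T * j (dS d (S ∩ T))) * rS d (symmDiff S T) := by
    rw [map_mul, map_mul, k_j]
    calc _ = k (c S) * k (c' T) * (rS d S * rS d T) := by ring
      _ = _ := by rw [rS_mul]; ring
  rw [e]
  refine Fil.single ?_
  have e2 : (c S * c' T * j (dS d (S ∩ T))) ^ 2 * j (dS d (symmDiff S T)) =
      (c S ^ 2 * j (dS d S)) * (c' T ^ 2 * j (dS d T)) := by
    have := congrArg j (dS_sq_mul (d := d) S T)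
    rw [map_mul, map_mul, map_pow] at this
    linear_combination (c S ^ 2 * c' T ^ 2) * this
  rw [e2, map_mul]
  exact mul_le_mul' (hc S) (hc' T)

theorem Fil.k_mul {a : F V} (ha : v a ≤ 1) {x : Om V} (hx : x ∈ Fil d v g) :
    k a * x ∈ Fil d v g := by
  have h1 : k a ∈ Fil d v 1 := by
    have := Fil.single (d := d) (v := v) (g := 1) (S := ∅) (a := a) (by
      rw [dS, Finset.prod_empty, map_one, mul_one, map_pow]
      exact pow_le_one₀ zero_le' ha)
    rwa [rS, Finset.prod_empty, mul_one] at this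
  have h2 := Fil.mul h1 hx
  rwa [one_mul] at h2

/-- derivations and the filtration -/
theorem Fil.deriv (hd : Good d) (hv : Triv v) {w : V} (hH : H v w g) {x : Om V}
    (hx : x ∈ Fil d v 1) : D w x ∈ Fil d v g := by
  obtain ⟨c, rfl, hc⟩ := hx
  rw [Φ_apply, map_sum]
  refine Fil.sum fun S _ => ?_
  have e : D w (k (c S) * rS d S) = k (DF w (c S) + c S * lam d w S) * rS d S := by
    rw [Derivation.leibniz, D_k, D_rS hd, smul_eq_mul, smul_eq_mul, map_add, map_mul]
    ring
  rw [e]
  refine Fil.single ?_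
  by_cases hS : c S = 0
  · rw [hS, map_zero, zero_mul, add_zero]; simp
  have h1 := hH _ (hc S)
  have hds := j_ne (dS_ne hd S)
  have e2 : DF w (c S ^ 2 * j (dS d S)) =
      algebraMap ℚ (F V) 2 * (c S * j (dS d S)) * (DF w (c S) + c S * lam d w S) := by
    rw [Derivation.leibniz, Derivation.leibniz_pow, DF_j, lam, map_ofNat]
    simp only [smul_eq_mul, nsmul_eq_mul]
    push_cast
    field_simp
    ring
  rw [e2, map_mul, map_mul, hv 2 two_ne_zero, one_mul, mul_pow] at h1
  have h3 : v (c S * j (dS d S)) ^ 2 = v (c S ^ 2 * j (dS d S)) * v (j (dS d S)) := by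
    rw [← map_pow, ← map_mul]
    congr 1; ring
  rw [h3] at h1
  have h4 : v (c S ^ 2 * j (dS d S)) ≠ 0 :=
    (_root_.map_ne_zero v).2 (mul_ne_zero (pow_ne_zero 2 hS) hds)
  rw [map_mul, map_pow]
  have h5 : v (c S ^ 2 * j (dS d S)) * (v (DF w (c S) + c S * lam d w S) ^ 2 * v (j (dS d S))) ≤
      v (c S ^ 2 * j (dS d S)) * g := by
    calc _ = v (c S ^ 2 * j (dS d S)) * v (j (dS d S)) *
        v (DF w (c S) + c S * lam d w S) ^ 2 := by ac_rfl
      _ ≤ g * v (c S ^ 2 * j (dS d S)) := h1
      _ = _ := mul_comm _ _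
  exact le_of_mul_le_mul_left h5 (zero_lt_iff.2 h4)

/-- rational polynomials in integral elements -/
theorem Fil.aeval (hv : Triv v) {x : Om V} (hx : x ∈ Fil d v 1) (p : Polynomial ℚ) :
    Polynomial.aeval x p ∈ Fil d v 1 := by
  have hone : ∀ q : ℚ, algebraMap ℚ (Om V) q ∈ Fil d v 1 := by
    intro q
    have h1 : (1 : Om V) ∈ Fil d v 1 := by
      have := Fil.single (d := d) (v := v) (g := 1) (S := ∅) (a := 1) (by
        rw [dS, Finset.prod_empty, map_one, mul_one, map_pow, map_one, one_pow])
      rwa [rS, Finset.prod_empty, mul_one, map_one] at this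
    have := Fil.k_mul (hv.le q) h1
    rwa [mul_one, k_rat] at this
  induction p using Polynomial.induction_on with
  | C a => rw [Polynomial.aeval_C]; exact hone a
  | add p q hp hq => rw [map_add]; exact Fil.add hp hq
  | monomial n a h =>
    rw [pow_succ, ← mul_assoc, map_mul, Polynomial.aeval_X]
    have := Fil.mul h hx
    rwa [one_mul] at this

/-- coordinates of elements of the filtration -/
theorem Fil.coord (hd : Good d) {c : Finset I →₀ F V} (hc : Φ d c ∈ Fil d v g) (S : Finset I) :
    v (c S ^ 2 * j (dS d S)) ≤ g := by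
  obtain ⟨c', h1, h2⟩ := hc
  rw [Φ_inj hd h1]
  exact h2 S

end Pool.Agent.TH729.Gr
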