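import Pool.Agent.TH729.Gr.Points

/-!
# The radicands of a graph
-/

set_option autoImplicit false

namespace Pool.Agent.TH729.Gr

open MvPolynomial WithZero

variable {V : Type}

theorem C_ne {c : ℚ} (hc : c ≠ 0) : (C c : A V) ≠ 0 := by
  rw [Ne, map_eq_zero_iff _ (C_injective V ℚ)]; exact hc

theorem C_isUnit {c : ℚ} (hc : c ≠ 0) : IsUnit (C c : A V) :=
  (isUnit_iff_ne_zero.2 hc).map C

theorem deg_of_pderiv (w : V) (m : A V) (c : ℚ) (hc : c ≠ 0) (h : pderiv w m = C c) :
    degreeOf w m = 1 := by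
  classical
  have h1 : degreeOf w (m - C c * X w) = 0 := by
    rw [← pderiv_eq_zero_iff, map_sub, h, pderiv_C_mul, pderiv_X_self, mul_one, sub_self]
  have h2 : degreeOf w (C c * X w) ≤ 1 := by
    refine (degreeOf_mul_le w _ _).trans ?_
    rw [degreeOf_C, degreeOf_X_self]
  have h3 : degreeOf w m ≤ 1 := by
    have h4 := degreeOf_add_le w (m - C c * X w) (C c * X w)
    rw [sub_add_cancel] at h4
    omega
  have h5 : degreeOf w m ≠ 0 := by
    intro h0
    rw [(pderiv_eq_zero_iff w m).2 h0] at h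
    exact C_ne hc h.symm
  omega

/-- polynomials which are linear in one variable, with constant coefficient, are prime -/
theorem prime_lin (w : V) (m : A V) (c : ℚ) (hc : c ≠ 0) (h : pderiv w m = C c) : Prime m := by
  classical
  have h1 := deg_of_pderiv w m c hc h
  have hm : m ≠ 0 := by
    rintro rfl
    rw [degreeOf_zero] at h1
    omega
  rw [← irreducible_iff_prime]
  -- a factor of degree zero is a unit
  have key : ∀ a b : A V, m = a * b → degreeOf w b = 0 → IsUnit b := by
    intro a b hab hb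
    rw [hab, pderiv_mul, (pderiv_eq_zero_iff w b).2 hb, mul_zero, add_zero] at h
    exact isUnit_of_dvd_unit (Dvd.intro_left _ h) (C_isUnit hc)
  refine ⟨fun hu => ?_, fun a b hab => ?_⟩
  · obtain ⟨y, hy⟩ := hu.exists_right_inv
    have hy0 : y ≠ 0 := by rintro rfl; simp at hy
    have := degreeOf_mul_eq (n := w) hm hy0
    rw [hy, degreeOf_one] at this
    omega
  · have ha : a ≠ 0 := by rintro rfl; rw [zero_mul] at hab; exact hm hab
    have hb : b ≠ 0 := by rintro rfl; rw [mul_zero] at hab; exact hm hab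
    have h2 := degreeOf_mul_eq (n := w) ha hb
    rw [← hab, h1] at h2
    by_cases h3 : degreeOf w b = 0
    · exact Or.inr (key a b hab h3)
    · left
      rw [mul_comm] at hab
      exact key b a hab (by omega)

theorem deg_add_eq (w : V) {p q : A V} (h : degreeOf w q < degreeOf w p) :
    degreeOf w (p + q) = degreeOf w p := by
  have h1 := degreeOf_add_le w p q
  have h2 := degreeOf_sub_le' w (p + q) q
  rw [add_sub_cancel_right] at h2
  omega

theorem ff_deg (v : V) : degreeOf v (ff (X v : A V)) = 6 := by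
  have hX2 : degreeOf v ((X v : A V) ^ 2) = 2 := by
    rw [degreeOf_pow_eq _ _ _ (X_ne_zero v), degreeOf_X_self]
  have h1 : degreeOf v ((X v : A V) ^ 2 + 1) = 2 := by
    rw [deg_add_eq, hX2]; rw [hX2, degreeOf_one]; omega
  have h2 : degreeOf v ((X v : A V) ^ 2 + 2) = 2 := by
    have e : (2 : A V) = C 2 := (map_ofNat C 2).symm
    rw [e, deg_add_eq, hX2]; rw [hX2, degreeOf_C]; omega
  have h3 : degreeOf v ((X v : A V) - 1) = 1 := by
    have e : (X v : A V) - 1 = X v + C (-1) := by
      rw [map_neg, map_one]; ring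
    rw [e, deg_add_eq, degreeOf_X_self]; rw [degreeOf_X_self, degreeOf_C]; omega
  have h30 : (X v : A V) - 1 ≠ 0 := by
    intro h; rw [h, degreeOf_zero] at h3; omega
  have h4 : degreeOf v (((X v : A V) - 1) ^ 2) = 2 := by
    rw [degreeOf_pow_eq _ _ _ h30, h3]
  have h5 : degreeOf v (((X v : A V) - 1) ^ 2 + 3) = 2 := by
    have e : (3 : A V) = C 3 := (map_ofNat C 3).symm
    rw [e, deg_add_eq, h4]; rw [h4, degreeOf_C]; omega
  have n1 : (X v : A V) ^ 2 + 1 ≠ 0 := by
    intro h; rw [h, degreeOf_zero] at h1; omega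
  have n2 : (X v : A V) ^ 2 + 2 ≠ 0 := by
    intro h; rw [h, degreeOf_zero] at h2; omega
  have n5 : ((X v : A V) - 1) ^ 2 + 3 ≠ 0 := by
    intro h; rw [h, degreeOf_zero] at h5; omega
  rw [ff, degreeOf_neg, degreeOf_mul_eq (mul_ne_zero n1 n2) n5, degreeOf_mul_eq n1 n2, h1, h2, h5]

theorem ff_ne (v : V) : ff (X v : A V) ≠ 0 := by
  intro h
  have := ff_deg v
  rw [h, degreeOf_zero] at this
  omega

theorem pderiv_ff_self (v : V) : pderiv v (ff (X v : A V)) = ff' (X v) := by
  classical
  have e2 : (2 : A V) = C 2 := (map_ofNat C 2).symm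
  have e3 : (3 : A V) = C 3 := (map_ofNat C 3).symm
  have d2 : pderiv v (2 : A V) = 0 := by rw [e2, pderiv_C]
  have d3 : pderiv v (3 : A V) = 0 := by rw [e3, pderiv_C]
  rw [ff, ff', map_neg, pderiv_mul, pderiv_mul, map_add, map_add, map_add, d2, d3, pderiv_one,
    pderiv_pow, pderiv_pow, map_sub, pderiv_one, pderiv_X_self]
  push_cast
  ring

theorem pderiv_ff_other {v w : V} (h : w ≠ v) : pderiv w (ff (X v : A V)) = 0 := by
  classical
  have e2 : (2 : A V) = C 2 := (map_ofNat C 2).symm
  have e3 : (3 : A V) = C 3 := (map_ofNat C 3).symm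
  have d2 : pderiv w (2 : A V) = 0 := by rw [e2, pderiv_C]
  have d3 : pderiv w (3 : A V) = 0 := by rw [e3, pderiv_C]
  rw [ff, map_neg, pderiv_mul, pderiv_mul, map_add, map_add, map_add, d2, d3, pderiv_one,
    pderiv_pow, pderiv_pow, map_sub, pderiv_one, pderiv_X_of_ne (Ne.symm h)]
  ring

theorem ff_bezout' {R : Type} [CommRing R] (x : R) :
    (-2616 + 11082 * x - 6932 * x ^ 2 + 3698 * x ^ 3 - 426 * x ^ 4) * ff x +
    (-3204 + 2352 * x - 3220 * x ^ 2 + 1487 * x ^ 3 - 640 * x ^ 4 + 71 * x ^ 5) * ff' x =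
      8112 := by
  rw [ff, ff']
  ring

/-- no prime divides both `f` and its derivative -/
theorem ff_sqf (v : V) {π : A V} (hπ : Prime π) : ¬ π ^ 2 ∣ ff (X v) := by
  intro h
  have h1 : π ∣ ff (X v) := dvd_trans (dvd_pow_self π two_ne_zero) h
  have h2 : π ∣ ff' (X v) := by
    rw [← pderiv_ff_self]
    have := pderiv_pow_dvd π (ff (X v)) v 1 h
    rwa [pow_one] at this
  have h3 : π ∣ (8112 : A V) := by
    rw [← ff_bezout' (X v : A V)]
    exact dvd_add (dvd_mul_of_dvd_right h1 _) (dvd_mul_of_dvd_right h2 _)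
  have e : (8112 : A V) = C 8112 := (map_ofNat C 8112).symm
  rw [e] at h3
  exact hπ.not_isUnit (isUnit_of_dvd_unit h3 (C_isUnit (by norm_num)))

/-- the radicand of a pair of distinct vertices -/
structure Off (v w : V) (m : A V) : Prop where
  ne : v ≠ w
  left : ∃ c : ℚ, c ≠ 0 ∧ pderiv v m = C c
  right : ∃ c : ℚ, c ≠ 0 ∧ pderiv w m = C c
  other : ∀ u, u ≠ v → u ≠ w → pderiv u m = 0

theorem Off.prime {v w : V} {m : A V} (h : Off v w m) : Prime m := by
  obtain ⟨c, hc, h1⟩ := h.left
  exact prime_lin v m c hc h1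

theorem Off.mem {v w : V} {m : A V} (h : Off v w m) (u : V) : degreeOf u m ≠ 0 ↔ u ∈ s(v, w) := by
  rw [Sym2.mem_iff]
  constructor
  · intro h1
    by_contra hcon
    push Not at hcon
    exact h1 ((pderiv_eq_zero_iff u m).1 (h.other u hcon.1 hcon.2))
  · rintro (rfl | rfl)
    · obtain ⟨c, hc, h1⟩ := h.left
      rw [deg_of_pderiv _ m c hc h1]; omega
    · obtain ⟨c, hc, h1⟩ := h.right
      rw [deg_of_pderiv _ m c hc h1]; omega

/-- the radicand of a vertex -/
def Dia (v : V) (m : A V) : Prop := ∃ e : ℚ, 0 < e ∧ m = C e * ff (X v)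

theorem Dia.ne {v : V} {m : A V} (h : Dia v m) : m ≠ 0 := by
  obtain ⟨e, he, rfl⟩ := h
  exact mul_ne_zero (C_ne he.ne') (ff_ne v)

theorem Dia.deg {v : V} {m : A V} (h : Dia v m) : degreeOf v m = 6 := by
  obtain ⟨e, he, rfl⟩ := h
  rw [degreeOf_mul_eq (C_ne he.ne') (ff_ne v), ff_deg, degreeOf_C]

theorem Dia.deg' {v w : V} {m : A V} (h : Dia v m) (hw : w ≠ v) : degreeOf w m = 0 := by
  classical
  obtain ⟨e, he, rfl⟩ := h
  rw [← pderiv_eq_zero_iff, pderiv_C_mul, pderiv_ff_other hw, mul_zero]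

theorem Dia.mem {v : V} {m : A V} (h : Dia v m) {π : A V} (hπ : Prime π) (h1 : π ∣ m) (u : V) :
    degreeOf u π ≠ 0 ↔ u ∈ s(v, v) := by
  have h2 : ∀ u, degreeOf u π ≠ 0 → u = v := by
    intro u hu
    by_contra hne
    have := deg_le_of_dvd h.ne h1 u
    rw [h.deg' hne] at this
    omega
  rw [Sym2.mem_iff, or_self]
  refine ⟨h2 u, ?_⟩
  rintro rfl
  obtain ⟨w, hw⟩ := exists_deg_of_prime hπ
  rw [h2 w hw] at hw
  exact hw

/-- a family of radicands of the right shape -/
theorem gd_of {d : Sym2 V → A V} (hdia : ∀ v, Dia v (d s(v, v)))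
    (hoff : ∀ v w, v ≠ w → Off v w (d s(v, w))) : GD d := by
  have hmem : ∀ i π, Prime π → π ∣ d i → ∀ u, degreeOf u π ≠ 0 ↔ u ∈ i := by
    intro i π hπ
    induction i using Sym2.ind with
    | _ v w =>
      intro h u
      by_cases hvw : v = w
      · subst hvw
        exact (hdia v).mem hπ h u
      · have h1 := hoff v w hvw
        have h2 : Associated π (d s(v, w)) := by
          rw [Prime.dvd_prime_iff_associated hπ h1.prime] at h
          exact h
        have h3 : degreeOf u π = degreeOf u (d s(v, w)) :=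
          le_antisymm (deg_le_of_dvd h1.prime.ne_zero h2.dvd u)
            (deg_le_of_dvd hπ.ne_zero h2.symm.dvd u)
        rw [h3]
        exact h1.mem u
  refine { ne := ?_, unique := ?_, sqf := ?_, nonunit := ?_, mem_iff := hmem, deg_diag := ?_,
           deg_off := ?_, deg_not := ?_ }
  · intro i
    induction i using Sym2.ind with
    | _ v w =>
      by_cases hvw : v = w
      · subst hvw
        exact (hdia v).ne
      · exact (hoff v w hvw).prime.ne_zero
  · intro π hπ i i' h h'
    apply Sym2.ext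
    intro u
    rw [← hmem i π hπ h u, ← hmem i' π hπ h' u]
  · intro π hπ i
    induction i using Sym2.ind with
    | _ v w =>
      by_cases hvw : v = w
      · subst hvw
        obtain ⟨e, he, h1⟩ := hdia v
        rw [h1]
        intro h
        rw [IsUnit.dvd_mul_left (C_isUnit he.ne')] at h
        exact ff_sqf v hπ h
      · intro h
        have h1 := (hoff v w hvw).prime.irreducible.squarefree π (by rwa [← pow_two])
        exact hπ.not_isUnit h1
  · intro i
    induction i using Sym2.ind with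
    | _ v w =>
      by_cases hvw : v = w
      · subst hvw
        obtain ⟨π, h1, h2, -⟩ := exists_prime_deg v (d s(v, v)) (hdia v).ne
          (by rw [(hdia v).deg]; omega)
        exact ⟨π, h1, h2⟩
      · exact ⟨d s(v, w), (hoff v w hvw).prime, dvd_rfl⟩
  · intro v
    exact (hdia v).deg
  · intro v w hvw
    obtain ⟨c, hc, h1⟩ := (hoff v w hvw).left
    exact (deg_of_pderiv _ _ c hc h1).le
  · intro i u hu
    induction i using Sym2.ind with
    | _ v w =>
      by_cases hvw : v = w
      · subst hvw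
        refine (hdia v).deg' ?_
        rintro rfl
        exact hu (Sym2.mem_mk_left _ _)
      · by_contra h
        exact hu (((hoff v w hvw).mem u).1 h)

/-- the linear polynomials in two of the variables -/
noncomputable def lin (a b c : ℚ) (v w : V) : A V := C a * X v + C b * X w + C c

theorem lin_left {v w : V} (hvw : v ≠ w) (a b c : ℚ) : pderiv v (lin a b c v w) = C a := by
  classical
  rw [lin, map_add, map_add, pderiv_C, pderiv_C_mul, pderiv_C_mul, pderiv_X_self,
    pderiv_X_of_ne (Ne.symm hvw)]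
  ring

theorem lin_right {v w : V} (hvw : v ≠ w) (a b c : ℚ) : pderiv w (lin a b c v w) = C b := by
  classical
  rw [lin, map_add, map_add, pderiv_C, pderiv_C_mul, pderiv_C_mul, pderiv_X_self,
    pderiv_X_of_ne hvw]
  ring

theorem lin_other {u v w : V} (huv : u ≠ v) (huw : u ≠ w) (a b c : ℚ) :
    pderiv u (lin a b c v w) = 0 := by
  classical
  rw [lin, map_add, map_add, pderiv_C, pderiv_C_mul, pderiv_C_mul, pderiv_X_of_ne (Ne.symm huv),
    pderiv_X_of_ne (Ne.symm huw)]
  ring

theorem lin_off {v w : V} (hvw : v ≠ w) {a b c : ℚ} (ha : a ≠ 0) (hb : b ≠ 0) :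
    Off v w (lin a b c v w) :=
  ⟨hvw, ⟨a, ha, lin_left hvw a b c⟩, ⟨b, hb, lin_right hvw a b c⟩,
    fun _ h1 h2 => lin_other h1 h2 a b c⟩

theorem lin_dvd {v w : V} (hvw : v ≠ w) {a b c a' b' c' : ℚ} (ha : a ≠ 0)
    (h : lin a b c v w ∣ lin a' b' c' v w) : a' * b = a * b' ∧ a' * c = a * c' := by
  classical
  have h1 : lin a b c v w ∣ lin 0 (a' * b - a * b') (a' * c - a * c') v w := by
    have e : lin 0 (a' * b - a * b') (a' * c - a * c') v w =
        C a' * lin a b c v w - C a * lin a' b' c' v w := by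
      simp only [lin, map_sub, map_mul, map_zero]
      ring
    rw [e]
    exact dvd_sub (dvd_mul_left _ _) (dvd_mul_of_dvd_right h _)
  have h2 : lin 0 (a' * b - a * b') (a' * c - a * c') v w = 0 := by
    by_contra hne
    have h3 := deg_le_of_dvd hne h1 v
    rw [deg_of_pderiv v _ a ha (lin_left hvw a b c), (pderiv_eq_zero_iff v _).1
      (by rw [lin_left hvw, map_zero])] at h3
    omega
  constructor
  · have h3 : pderiv w (lin 0 (a' * b - a * b') (a' * c - a * c') v w) = 0 := by
      rw [h2, map_zero]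
    rw [lin_right hvw] at h3
    by_contra hcon
    exact C_ne (sub_ne_zero.2 hcon) h3
  · have h3 := congrArg (constantCoeff) h2
    simp only [lin, map_add, map_mul, constantCoeff_C, constantCoeff_X, map_zero] at h3
    linarith

section graph

variable (E : V → V → Prop)

open Classical in
/-- the radicand of an ordered pair -/
noncomputable def gen₀ (v w : V) : A V :=
  if v = w then (if E v v then ff (X v) else C 2 * ff (X v))
  else if E v w then (if E w v then lin 1 1 0 v w else lin 1 2 0 v w)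
  else (if E w v then lin 2 1 0 v w else lin 1 1 1 v w)

theorem gen₀_symm (v w : V) : gen₀ E v w = gen₀ E w v := by
  by_cases h : v = w
  · subst h; rfl
  have h' : w ≠ v := Ne.symm h
  simp only [gen₀, if_neg h, if_neg h']
  by_cases h1 : E v w <;> by_cases h2 : E w v <;> simp only [h1, h2, if_true, if_false, lin] <;>
    ring

/-- the radicands of a graph -/
noncomputable def gen : Sym2 V → A V := Sym2.lift ⟨gen₀ E, gen₀_symm E⟩

theorem gen_mk (v w : V) : gen E s(v, w) = gen₀ E v w := rfl

theorem gen_diag_pos {v : V} (h : E v v) : gen E s(v, v) = ff (X v) := by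
  rw [gen_mk, gen₀, if_pos rfl, if_pos h]

theorem gen_diag_neg {v : V} (h : ¬ E v v) : gen E s(v, v) = C 2 * ff (X v) := by
  rw [gen_mk, gen₀, if_pos rfl, if_neg h]

theorem gen_tt {v w : V} (hvw : v ≠ w) (h1 : E v w) (h2 : E w v) :
    gen E s(v, w) = lin 1 1 0 v w := by
  rw [gen_mk, gen₀, if_neg hvw, if_pos h1, if_pos h2]

theorem gen_tf {v w : V} (hvw : v ≠ w) (h1 : E v w) (h2 : ¬ E w v) :
    gen E s(v, w) = lin 1 2 0 v w := by
  rw [gen_mk, gen₀, if_neg hvw, if_pos h1, if_neg h2]

theorem gen_ft {v w : V} (hvw : v ≠ w) (h1 : ¬ E v w) (h2 : E w v) :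
    gen E s(v, w) = lin 2 1 0 v w := by
  rw [gen_mk, gen₀, if_neg hvw, if_neg h1, if_pos h2]

theorem gen_ff {v w : V} (hvw : v ≠ w) (h1 : ¬ E v w) (h2 : ¬ E w v) :
    gen E s(v, w) = lin 1 1 1 v w := by
  rw [gen_mk, gen₀, if_neg hvw, if_neg h1, if_neg h2]

theorem gen_dia (v : V) : Dia v (gen E s(v, v)) := by
  by_cases h : E v v
  · exact ⟨1, one_pos, by rw [gen_diag_pos E h, map_one, one_mul]⟩
  · exact ⟨2, two_pos, gen_diag_neg E h⟩

theorem gen_off {v w : V} (hvw : v ≠ w) : Off v w (gen E s(v, w)) := by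
  by_cases h1 : E v w <;> by_cases h2 : E w v
  · rw [gen_tt E hvw h1 h2]; exact lin_off hvw (by norm_num) (by norm_num)
  · rw [gen_tf E hvw h1 h2]; exact lin_off hvw (by norm_num) (by norm_num)
  · rw [gen_ft E hvw h1 h2]; exact lin_off hvw (by norm_num) (by norm_num)
  · rw [gen_ff E hvw h1 h2]; exact lin_off hvw (by norm_num) (by norm_num)

theorem gen_GD : GD (gen E) := gd_of (gen_dia E) fun _ _ h => gen_off E h

theorem gen_vertex : IsVertexRad (gen E) := gen_dia E

end graph

end Pool.Agent.TH729.Gr
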