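import Pool.Agent.TH729.Gr.Aut

/-!
# Elements integral over a valuation ring of the field of rational functions
-/

set_option autoImplicit false

namespace Pool.Agent.TH729.Gr

open Polynomial WithZero

variable {V : Type}

/-- the structure map of the valuation ring -/
noncomputable def str (v : Valuation (F V) ℤᵐ⁰) : v.valuationSubring →+* Om V :=
  (algebraMap (F V) (Om V)).comp v.valuationSubring.subtype

/-- `z` is integral over the valuation ring of `v` -/
def Int (v : Valuation (F V) ℤᵐ⁰) (z : Om V) : Prop := (str v).IsIntegralElem z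

variable {v : Valuation (F V) ℤᵐ⁰}

theorem Int.add {x y : Om V} (hx : Int v x) (hy : Int v y) : Int v (x + y) :=
  RingHom.IsIntegralElem.add _ hx hy

theorem Int.mul {x y : Om V} (hx : Int v x) (hy : Int v y) : Int v (x * y) :=
  RingHom.IsIntegralElem.mul _ hx hy

theorem Int.neg {x : Om V} (hx : Int v x) : Int v (-x) := RingHom.IsIntegralElem.neg _ hx

theorem int_k {a : F V} (ha : v a ≤ 1) : Int v (k a) :=
  RingHom.isIntegralElem_map (str v) (x := (⟨a, ha⟩ : v.valuationSubring))

theorem Int.pow {x : Om V} (hx : Int v x) (n : ℕ) : Int v (x ^ n) := by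
  induction n with
  | zero =>
    rw [pow_zero, ← map_one (algebraMap (F V) (Om V))]
    exact int_k (by rw [map_one])
  | succ n ih => rw [pow_succ]; exact ih.mul hx

theorem Int.of_k {a : F V} (h : Int v (k a)) : v a ≤ 1 := by
  have h1 : IsIntegral v.valuationSubring a := by
    obtain ⟨p, hp, h2⟩ := h
    refine ⟨p, hp, ?_⟩
    have h3 : k (p.eval₂ (algebraMap v.valuationSubring (F V)) a) = 0 := by
      rw [Polynomial.hom_eval₂]
      exact h2
    exact (map_eq_zero _).1 h3
  exact (Valuation.valuationSubring.integers v).mem_of_integral h1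

theorem Int.map {z : Om V} (h : Int v z) (σ : Om V ≃ₐ[F V] Om V) : Int v (σ z) := by
  obtain ⟨p, hp, h2⟩ := h
  refine ⟨p, hp, ?_⟩
  have h3 : (σ : Om V →+* Om V) (p.eval₂ (str v) z) = 0 := by rw [h2, map_zero]
  rw [Polynomial.hom_eval₂] at h3
  have h4 : (σ : Om V →+* Om V).comp (str v) = str v := by
    ext x
    exact σ.commutes _
  rw [h4] at h3
  exact h3

theorem Int.of_sq {z : Om V} (h : Int v (z ^ 2)) : Int v z := by
  let := (str v).toAlgebra
  have h1 : IsIntegral v.valuationSubring (z ^ 2) := h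
  exact IsIntegral.of_pow two_pos h1

/-- the valuation is trivial on the rational numbers -/
def Triv (v : Valuation (F V) ℤᵐ⁰) : Prop := ∀ q : ℚ, q ≠ 0 → v (algebraMap ℚ (F V) q) = 1

theorem Triv.le (hv : Triv v) (q : ℚ) : v (algebraMap ℚ (F V) q) ≤ 1 := by
  by_cases hq : q = 0
  · rw [hq, map_zero, map_zero]; exact zero_le'
  · rw [hv q hq]

theorem k_rat (q : ℚ) : k (algebraMap ℚ (F V) q) = algebraMap ℚ (Om V) q := by
  have h : (k (V := V)).comp (algebraMap ℚ (F V)) = algebraMap ℚ (Om V) := Subsingleton.elim _ _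
  exact DFunLike.congr_fun h q

/-- Every element has an integral reciprocal after a suitable rational translation. -/
theorem exists_c (hv : Triv v) (a : Om V) : ∃ c : ℚ, a ≠ algebraMap ℚ (Om V) c ∧
    Int v ((a - algebraMap ℚ (Om V) c)⁻¹) := by
  classical
  have halg : IsIntegral (F V) a := Algebra.IsIntegral.isIntegral a
  set m := minpoly (F V) a with hm
  have hm0 : m ≠ 0 := minpoly.ne_zero halg
  have hma : aeval a m = 0 := minpoly.aeval _ _
  -- the coefficient with the largest valuation
  obtain ⟨n₀, hn₀, hmax⟩ := Finset.exists_max_image m.support (fun n => v (m.coeff n))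
    (support_nonempty.2 hm0)
  have hμ : m.coeff n₀ ≠ 0 := mem_support_iff.1 hn₀
  have hμv : v (m.coeff n₀) ≠ 0 := (_root_.map_ne_zero v).2 hμ
  have hle : ∀ n, v ((C (m.coeff n₀)⁻¹ * m).coeff n) ≤ 1 := by
    intro n
    rw [coeff_C_mul, map_mul, map_inv₀]
    by_cases hn : n ∈ m.support
    · have := hmax n hn
      rw [inv_mul_le_iff₀ (zero_lt_iff.2 hμv), mul_one]
      exact this
    · rw [notMem_support_iff.1 hn, map_zero, mul_zero]; exact zero_le'
  have hone : (C (m.coeff n₀)⁻¹ * m).coeff n₀ = 1 := by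
    rw [coeff_C_mul, inv_mul_cancel₀ hμ]
  -- as a polynomial over the valuation ring
  obtain ⟨N, hN⟩ : ∃ N : (v.valuationSubring)[X],
      N.map v.valuationSubring.subtype = C (m.coeff n₀)⁻¹ * m := by
    have : C (m.coeff n₀)⁻¹ * m ∈ lifts v.valuationSubring.subtype := by
      rw [lifts_iff_coeff_lifts]
      intro n
      exact ⟨⟨_, hle n⟩, rfl⟩
    exact (mem_lifts _).1 this
  have hNa : N.eval₂ (str v) a = 0 := by
    have h1 : (N.map v.valuationSubring.subtype).eval₂ (algebraMap (F V) (Om V)) a = 0 := by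
      rw [hN, ← aeval_def, map_mul, hma, mul_zero]
    rw [eval₂_map] at h1
    exact h1
  -- the rational numbers in the valuation ring
  let e : ℚ →+* v.valuationSubring :=
    (algebraMap ℚ (F V)).codRestrict v.valuationSubring.toSubring (fun q => hv.le q)
  let ρ := IsLocalRing.residue v.valuationSubring
  have hN0 : N.map ρ ≠ 0 := by
    intro h0
    have h1 : ρ (N.coeff n₀) = 0 := by rw [← coeff_map, h0, coeff_zero]
    have h2 : N.coeff n₀ = 1 := by
      apply v.valuationSubring.subtype_injective
      rw [← coeff_map, hN, hone, map_one]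
    rw [h2, map_one] at h1
    exact one_ne_zero h1
  obtain ⟨c, hc⟩ : ∃ c : ℚ, (N.map ρ).eval (ρ (e c)) ≠ 0 := by
    by_contra hcon
    push Not at hcon
    apply hN0
    refine eq_zero_of_infinite_isRoot _ ?_
    refine Set.Infinite.mono (s := Set.range fun c : ℚ => ρ (e c)) ?_ ?_
    · rintro _ ⟨c, rfl⟩
      exact hcon c
    · exact Set.infinite_range_of_injective (ρ.comp e).injective
  have hunit : IsUnit (N.eval (e c)) := by
    rw [← IsLocalRing.residue_ne_zero_iff_isUnit]
    rw [eval_map, eval₂_hom] at hc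
    exact hc
  -- translate
  set M := N.comp (X + C (e c)) with hMdef
  have hM0 : M.coeff 0 = N.eval (e c) := by
    rw [coeff_zero_eq_eval_zero, hMdef, eval_comp]; simp
  have hMx : M.eval₂ (str v) (a - algebraMap ℚ (Om V) c) = 0 := by
    have h1 : str v (e c) = algebraMap ℚ (Om V) c := k_rat c
    rw [hMdef, eval₂_comp, eval₂_add, eval₂_X, eval₂_C, h1, sub_add_cancel, hNa]
  have hx0 : a - algebraMap ℚ (Om V) c ≠ 0 := by
    intro h0
    rw [h0, eval₂_at_zero] at hMx
    have : M.coeff 0 ≠ 0 := by rw [hM0]; exact hunit.ne_zero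
    have h2 : Function.Injective (str v) :=
      (algebraMap (F V) (Om V)).injective.comp v.valuationSubring.subtype_injective
    exact this ((map_eq_zero_iff _ h2).1 hMx)
  refine ⟨c, sub_ne_zero.1 hx0, ?_⟩
  let : Invertible (a - algebraMap ℚ (Om V) c) := invertibleOfNonzero hx0
  have h1 := (eval₂_reverse_eq_zero_iff (str v) (a - algebraMap ℚ (Om V) c) M).2 hMx
  rw [invOf_eq_inv] at h1
  have hlead : M.reverse.leadingCoeff = N.eval (e c) := by
    rw [reverse_leadingCoeff, trailingCoeff, natTrailingDegree_eq_zero.2, hM0]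
    right
    rw [hM0]; exact hunit.ne_zero
  obtain ⟨u, hu⟩ := hunit
  refine ⟨C ((u⁻¹ : (v.valuationSubring)ˣ) : v.valuationSubring) * M.reverse, ?_, ?_⟩
  · rw [Monic, leadingCoeff_mul, leadingCoeff_C, hlead, ← hu]
    simp
  · rw [eval₂_mul, h1, mul_zero]

end Pool.Agent.TH729.Gr
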