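import Pool.Agent.TH729.Gr.Val2

/-!
# Multiquadratic extensions of the field of rational functions: linear independence
-/

set_option autoImplicit false

namespace Pool.Agent.TH729.Gr

open MvPolynomial WithZero

variable {V : Type} {I : Type}

/-- the radicands are squarefree and coprime -/
structure Good (d : I → A V) : Prop where
  ne : ∀ i, d i ≠ 0
  unique : ∀ π, Prime π → ∀ i i', π ∣ d i → π ∣ d i' → i = i'
  sqf : ∀ π, Prime π → ∀ i, ¬ π ^ 2 ∣ d i
  nonunit : ∀ i, ∃ π, Prime π ∧ π ∣ d i

theorem exists_r (d : I → A V) (i : I) : ∃ x : Om V, x ^ 2 = ι (d i) :=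
  IsAlgClosed.exists_pow_nat_eq _ two_pos

/-- the square roots -/
noncomputable def r (d : I → A V) (i : I) : Om V := (exists_r d i).choose

theorem r_sq (d : I → A V) (i : I) : r d i ^ 2 = ι (d i) := (exists_r d i).choose_spec

/-- the product of the radicands -/
noncomputable def dS (d : I → A V) (S : Finset I) : A V := ∏ i ∈ S, d i

/-- the product of the square roots -/
noncomputable def rS (d : I → A V) (S : Finset I) : Om V := ∏ i ∈ S, r d i

theorem rS_sq (d : I → A V) (S : Finset I) : rS d S ^ 2 = ι (dS d S) := by
  rw [rS, dS, ← Finset.prod_pow, map_prod]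
  exact Finset.prod_congr rfl fun i _ => r_sq d i

theorem rS_mul [DecidableEq I] (d : I → A V) (S T : Finset I) :
    rS d S * rS d T = ι (dS d (S ∩ T)) * rS d (symmDiff S T) := by
  have h1 : rS d S = rS d (S ∩ T) * rS d (S \ T) := (Finset.prod_inter_mul_prod_diff S T _).symm
  have h2 : rS d T = rS d (S ∩ T) * rS d (T \ S) := by
    rw [Finset.inter_comm]; exact (Finset.prod_inter_mul_prod_diff T S _).symm
  have h3 : rS d (symmDiff S T) = rS d (S \ T) * rS d (T \ S) := by
    have : Disjoint (S \ T) (T \ S) := disjoint_sdiff_sdiff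
    rw [rS, rS, rS, ← Finset.prod_union this]
    rfl
  rw [h1, h2, h3, ← rS_sq]
  ring

theorem ι_inj : Function.Injective (ι (V := V)) := by
  intro a b h
  rw [← k_j, ← k_j] at h
  exact j_inj ((algebraMap (F V) (Om V)).injective h)

theorem ι_ne {a : A V} (h : a ≠ 0) : ι a ≠ 0 := by
  rw [Ne, map_eq_zero_iff _ ι_inj]; exact h

theorem dS_ne {d : I → A V} (hd : Good d) (S : Finset I) : dS d S ≠ 0 :=
  Finset.prod_ne_zero_iff.2 fun i _ => hd.ne i

theorem rS_ne {d : I → A V} (hd : Good d) (S : Finset I) : rS d S ≠ 0 := by
  intro h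
  have := rS_sq d S
  rw [h, zero_pow two_ne_zero] at this
  exact ι_ne (dS_ne hd S) this.symm

/-- half the logarithmic derivative of the product of the radicands -/
noncomputable def lam (d : I → A V) (v : V) (S : Finset I) : F V :=
  j (pderiv v (dS d S)) / (2 * j (dS d S))

theorem D_rS {d : I → A V} (hd : Good d) (v : V) (S : Finset I) :
    D v (rS d S) = k (lam d v S) * rS d S := by
  have h1 : D v (rS d S ^ 2) = ι (pderiv v (dS d S)) := by rw [rS_sq, D_ι]
  rw [Derivation.leibniz_pow, Nat.add_one_sub_one, pow_one] at h1
  have h2 := rS_ne hd S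
  have h3 := ι_ne (dS_ne hd S)
  have e : k (lam d v S) = ι (pderiv v (dS d S)) / (2 * ι (dS d S)) := by
    rw [lam, map_div₀, map_mul, k_j, k_j, map_ofNat]
  rw [e, ← h1, ← rS_sq]
  simp only [smul_eq_mul, nsmul_eq_mul]
  push_cast
  field_simp

/-- the element with the given coordinates -/
noncomputable def Φ (d : I → A V) : (Finset I →₀ F V) →ₗ[F V] Om V :=
  Finsupp.linearCombination (F V) (rS d)

theorem Φ_apply (d : I → A V) (c : Finset I →₀ F V) :
    Φ d c = ∑ S ∈ c.support, k (c S) * rS d S := by
  rw [Φ, Finsupp.linearCombination_apply, Finsupp.sum]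
  exact Finset.sum_congr rfl fun S _ => Algebra.smul_def _ _

theorem Φ_apply' (d : I → A V) (c : Finset I →₀ F V) {s : Finset (Finset I)}
    (hs : c.support ⊆ s) : Φ d c = ∑ S ∈ s, k (c S) * rS d S := by
  rw [Φ_apply]
  refine Finset.sum_subset hs fun S _ h => ?_
  rw [Finsupp.notMem_support_iff.1 h, map_zero, zero_mul]

/-- the valuation of a product of radicands at a prime which divides none of them -/
theorem vP_dS_one (d : I → A V) {π : A V} (hπ : Prime π) {S : Finset I}
    (h : ∀ i ∈ S, ¬ π ∣ d i) : vP π hπ (j (dS d S)) = 1 := by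
  rw [vP_eq_one_iff]
  intro hdvd
  obtain ⟨i, hi, h2⟩ := (Prime.dvd_finset_prod_iff hπ _).1 hdvd
  exact h i hi h2

/-- the valuation of a product of radicands at a prime which divides one of them -/
theorem vP_dS_exp [DecidableEq I] {d : I → A V} (hd : Good d) {π : A V} (hπ : Prime π)
    {S : Finset I} {i : I} (hi : i ∈ S) (h : π ∣ d i) :
    vP π hπ (j (dS d S)) = exp (-1) := by
  have e : dS d S = d i * dS d (S.erase i) := (Finset.mul_prod_erase S d hi).symm
  rw [e, map_mul, map_mul, vP_of_dvd π hπ h (hd.sqf π hπ i), vP_dS_one d hπ, mul_one]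
  intro i' hi' h'
  exact Finset.ne_of_mem_erase hi' (hd.unique π hπ i' i h' h)

/-- a square times a product of radicands has even order everywhere only in the trivial case -/
theorem parity {d : I → A V} (hd : Good d) {S T : Finset I} {x : F V} (hx : x ≠ 0)
    (h : ∀ π (hπ : Prime π), vP π hπ (x ^ 2 * j (dS d S) / j (dS d T)) = 1) : S = T := by
  classical
  -- a prime in one product but not in the other one
  have key : ∀ (S T : Finset I) (x : F V), x ≠ 0 →
      (∀ π (hπ : Prime π), vP π hπ (x ^ 2 * j (dS d S) / j (dS d T)) = 1) → S ⊆ T := by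
    intro S T x hx h i hiS
    by_contra hiT
    obtain ⟨π, hπ, hdi⟩ := hd.nonunit i
    have h1 := h π hπ
    rw [map_div₀, map_mul, vP_dS_exp hd hπ hiS hdi, vP_dS_one d hπ (S := T)
      (fun i' hi' h' => hiT (by rw [hd.unique π hπ i i' hdi h']; exact hi')), div_one,
      map_pow] at h1
    have h2 : vP π hπ x ≠ 0 := (map_ne_zero _).2 hx
    rw [← exp_log h2, ← exp_nsmul, ← exp_add, ← exp_zero, exp_inj] at h1
    simp only [nsmul_eq_mul] at h1
    push_cast at h1
    omega
  refine Finset.Subset.antisymm (key S T x hx h) (key T S x⁻¹ (inv_ne_zero hx) ?_)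
  intro π hπ
  have h1 := h π hπ
  have h2 : x⁻¹ ^ 2 * j (dS d T) / j (dS d S) = (x ^ 2 * j (dS d S) / j (dS d T))⁻¹ := by
    rw [inv_div, inv_pow, div_mul_eq_div_div_swap]
    ring
  rw [h2, map_inv₀, h1, inv_one]

/-- The products of square roots are linearly independent. -/
theorem linInd {d : I → A V} (hd : Good d) (c : Finset I →₀ F V) (hc : Φ d c = 0) : c = 0 := by
  classical
  -- induction on the size of the support
  have key : ∀ (n : ℕ) (c : Finset I →₀ F V), c.support.card = n → Φ d c = 0 → c = 0 := by
    intro n
    induction n using Nat.strong_induction_on with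
    | _ n ih =>
      intro c hn hc
      by_contra hne
      obtain ⟨S₀, hS₀⟩ := Finsupp.support_nonempty_iff.2 hne
      have hc₀ : c S₀ ≠ 0 := Finsupp.mem_support_iff.1 hS₀
      -- the logarithmic derivatives of all terms are equal
      have hder : ∀ v : V, ∀ S ∈ c.support,
          DF v (c S) + c S * (lam d v S - (DF v (c S₀) / c S₀ + lam d v S₀)) = 0 := by
        intro v
        set μ : F V := DF v (c S₀) / c S₀ + lam d v S₀ with hμ
        let c' : Finset I →₀ F V := Finsupp.onFinset c.support
          (fun S => DF v (c S) + c S * (lam d v S - μ)) (by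
            intro S hS
            rw [Finsupp.mem_support_iff]
            intro h0
            apply hS
            rw [h0, map_zero, zero_mul, add_zero])
        have hc'S : ∀ S, c' S = DF v (c S) + c S * (lam d v S - μ) := fun S => rfl
        have h1 : Φ d c' = 0 := by
          have hsub : c'.support ⊆ c.support := Finsupp.support_onFinset_subset
          rw [Φ_apply' d c' hsub]
          have h2 : D v (Φ d c) = ∑ S ∈ c.support, k (DF v (c S) + c S * lam d v S) * rS d S := by
            rw [Φ_apply, map_sum]
            refine Finset.sum_congr rfl fun S _ => ?_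
            rw [Derivation.leibniz, D_k, D_rS hd, smul_eq_mul, smul_eq_mul, map_add, map_mul]
            ring
          rw [hc, map_zero] at h2
          have h3 : k μ * Φ d c = ∑ S ∈ c.support, k (c S * μ) * rS d S := by
            rw [Φ_apply, Finset.mul_sum]
            refine Finset.sum_congr rfl fun S _ => ?_
            rw [map_mul]; ring
          rw [hc, mul_zero] at h3
          calc ∑ S ∈ c.support, k (c' S) * rS d S
              = ∑ S ∈ c.support, k (DF v (c S) + c S * lam d v S) * rS d S -
                ∑ S ∈ c.support, k (c S * μ) * rS d S := by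
                rw [← Finset.sum_sub_distrib]
                refine Finset.sum_congr rfl fun S _ => ?_
                rw [hc'S, mul_sub, ← add_sub_assoc, map_sub, sub_mul]
            _ = 0 := by rw [← h2, ← h3, sub_zero]
        have h4 : c' S₀ = 0 := by
          rw [hc'S, hμ]
          field_simp
          ring
        have h5 : c' = 0 := by
          refine ih c'.support.card ?_ c' rfl h1
          rw [← hn]
          refine Finset.card_lt_card ?_
          refine ⟨Finsupp.support_onFinset_subset, fun h => ?_⟩
          exact (Finsupp.mem_support_iff.1 (h hS₀)) h4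
        intro S _
        have h6 : c' S = 0 := by rw [h5]; rfl
        rw [← h6, hc'S]
      -- so there is only one term
      have hone : ∀ S ∈ c.support, S = S₀ := by
        intro S hS
        have hcS : c S ≠ 0 := Finsupp.mem_support_iff.1 hS
        have hρ0 : (c S / c S₀) ^ 2 * j (dS d S) / j (dS d S₀) ≠ 0 :=
          div_ne_zero (mul_ne_zero (pow_ne_zero 2 (div_ne_zero hcS hc₀)) (j_ne (dS_ne hd S)))
            (j_ne (dS_ne hd S₀))
        have hDρ : ∀ v, DF v ((c S / c S₀) ^ 2 * j (dS d S) / j (dS d S₀)) = 0 := by
          intro v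
          have h1 := hder v S hS
          have e1 := j_ne (dS_ne hd S)
          have e2 := j_ne (dS_ne hd S₀)
          rw [Derivation.leibniz_div, Derivation.leibniz, DF_j, DF_j, Derivation.leibniz_pow,
            Derivation.leibniz_div]
          simp only [lam, smul_eq_mul, nsmul_eq_mul] at h1 ⊢
          push_cast
          simp only [Nat.add_one_sub_one, pow_one]
          have h2 : DF v (c S) = - (c S * (j (pderiv v (dS d S)) / (2 * j (dS d S)) -
            (DF v (c S₀) / c S₀ + j (pderiv v (dS d S₀)) / (2 * j (dS d S₀))))) :=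
            eq_neg_of_add_eq_zero_left h1
          rw [h2]
          field_simp
          ring
        exact parity hd (div_ne_zero hcS hc₀) (fun π hπ => by
          obtain ⟨w, hw⟩ := exists_deg_of_prime hπ
          exact vP_of_DF π hπ w hw hρ0 (hDρ w))
      have hsupp : c.support = {S₀} := by
        ext S
        rw [Finset.mem_singleton]
        exact ⟨hone S, fun h => by rw [h]; exact hS₀⟩
      rw [Φ_apply, hsupp, Finset.sum_singleton] at hc
      rcases mul_eq_zero.1 hc with h | h
      · rw [map_eq_zero] at h
        exact hc₀ h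
      · exact rS_ne hd S₀ h
  exact key _ c rfl hc

theorem Φ_inj {d : I → A V} (hd : Good d) : Function.Injective (Φ d) := by
  rw [injective_iff_map_eq_zero]
  exact linInd hd

end Pool.Agent.TH729.Gr
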