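import Pool.Agent.TH729.Gr.Gen

/-!
# Non-squares in the field of a graph
-/

set_option autoImplicit false

namespace Pool.Agent.TH729.Gr

open MvPolynomial WithZero

variable {V : Type}

/-- an element of odd order at a prime which divides none of the radicands is not a square -/
theorem nonsq {I : Type} [DecidableEq I] {d : I → A V} (hd : Good d) {π : A V} (hπ : Prime π)
    (hnd : ∀ i, ¬ π ∣ d i) {m : A V} (hm : π ∣ m) (hm2 : ¬ π ^ 2 ∣ m) {s : Om V}
    (hs : s ∈ KK d) : s ^ 2 ≠ ι m := by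
  classical
  intro hsm
  have hm0 : m ≠ 0 := by rintro rfl; exact hm2 (dvd_zero _)
  have hs0 : s ≠ 0 := by
    rintro rfl
    rw [zero_pow two_ne_zero] at hsm
    exact ι_ne hm0 hsm.symm
  rw [KK, ← Set.image_univ] at hs
  obtain ⟨c, rfl, -⟩ := exists_coord d Set.univ hs
  obtain ⟨w, hw⟩ := exists_deg_of_prime hπ
  have hc0 : c ≠ 0 := by
    rintro rfl
    rw [map_zero] at hs0
    exact hs0 rfl
  obtain ⟨S, hS⟩ := Finsupp.support_nonempty_iff.2 hc0
  have hcS : c S ≠ 0 := Finsupp.mem_support_iff.1 hS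
  -- the derivative of the square root
  have h1 : D w (Φ d c) = k (j (pderiv w m) / (2 * j m)) * Φ d c := by
    have h2 : D w (Φ d c ^ 2) = ι (pderiv w m) := by rw [hsm, D_ι]
    rw [Derivation.leibniz_pow, Nat.add_one_sub_one, pow_one] at h2
    have e : k (j (pderiv w m) / (2 * j m)) = ι (pderiv w m) / (2 * ι m) := by
      rw [map_div₀, map_mul, k_j, k_j, map_ofNat]
    have h3 := ι_ne hm0
    rw [e, ← h2, ← hsm]
    simp only [smul_eq_mul, nsmul_eq_mul]
    push_cast
    field_simp
  obtain ⟨c', h2, h3⟩ := D_Φ hd w c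
  rw [h2, ← Algebra.smul_def, ← map_smul] at h1
  have h4 := Φ_inj hd h1
  have h5 : DF w (c S) + c S * lam d w S = j (pderiv w m) / (2 * j m) * c S := by
    rw [← h3, h4]; rfl
  have hm0' := j_ne hm0
  have h6 : DF w (c S ^ 2 * j (dS d S) / j m) = 0 := by
    rw [Derivation.leibniz_div, DF_sq hd, h5, DF_j]
    simp only [smul_eq_mul]
    field_simp
    ring
  have hne : c S ^ 2 * j (dS d S) / j m ≠ 0 :=
    div_ne_zero (mul_ne_zero (pow_ne_zero 2 hcS) (j_ne (dS_ne hd S))) hm0'
  have h7 := vP_of_DF π hπ w hw hne h6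
  rw [map_div₀, map_mul, vP_dS_one d hπ (fun i _ => hnd i), mul_one, map_pow,
    vP_of_dvd π hπ hm hm2] at h7
  have h8 : vP π hπ (c S) ≠ 0 := (map_ne_zero _).2 hcS
  rw [← exp_log h8, ← exp_nsmul, ← exp_sub, ← exp_zero, exp_inj] at h7
  simp only [nsmul_eq_mul] at h7
  push_cast at h7
  omega

/-- two is not a square -/
theorem no_sqrt_two {I : Type} [DecidableEq I] {d : I → A V} (hd : Good d) {s : Om V}
    (hs : s ∈ KK d) : s ^ 2 ≠ 2 := by
  intro h
  have hs0 : s ≠ 0 := by
    rintro rfl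
    rw [zero_pow two_ne_zero] at h
    exact two_ne_zero h.symm
  obtain ⟨q, hq⟩ := const_of_D hd hs (fun w => by
    have h1 : D w (s ^ 2) = 0 := by
      rw [h]
      exact Derivation.map_natCast (D w) 2
    rw [Derivation.leibniz_pow, Nat.add_one_sub_one, pow_one] at h1
    simp only [smul_eq_mul, nsmul_eq_mul] at h1
    push_cast at h1
    rcases mul_eq_zero.1 h1 with h2 | h2
    · exact absurd h2 two_ne_zero
    · rcases mul_eq_zero.1 h2 with h3 | h3
      · exact absurd h3 hs0
      · exact h3)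
  have h2 : q ^ 2 = (2 : ℚ) := by
    apply (algebraMap ℚ (Om V)).injective
    rw [map_pow, ← hq, h, map_ofNat]
  have h3 : ¬ IsSquare 2 := Nat.Prime.prime Nat.prime_two |>.irreducible.not_isSquare
  have h4 := nonsq_rat h3 (x := q) (y := 1) (by rw [h2]; norm_num)
  exact one_ne_zero h4.2

section graph

theorem sqrt_mem {I : Type} (d : I → A V) (i : I) : r d i ∈ KK d :=
  IntermediateField.subset_adjoin _ _ ⟨i, rfl⟩

/-- a prime which involves both of two vertices divides at most the radicand of the pair -/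
theorem pair_dvd {d : Sym2 V → A V} (hd : GD d) {π : A V} (hπ : Prime π) {v w : V}
    (hvw : v ≠ w) (hv : degreeOf v π ≠ 0) (hw : degreeOf w π ≠ 0) {i : Sym2 V} (h : π ∣ d i) :
    i = s(v, w) := by
  have h1 := (hd.mem_iff i π hπ h v).1 hv
  have h2 := (hd.mem_iff i π hπ h w).1 hw
  exact ((Sym2.mem_and_mem_iff hvw).1 ⟨h1, h2⟩)

theorem nonsq_prime [DecidableEq V] {d : Sym2 V → A V} (hd : GD d) {m : A V} {v w : V} (hm : Prime m)
    (hvw : v ≠ w) (hv : degreeOf v m ≠ 0) (hw : degreeOf w m ≠ 0) (h : ¬ m ∣ d s(v, w))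
    {s : Om V} (hs : s ∈ KK d) : s ^ 2 ≠ ι m := by
  refine nonsq hd.toGood hm (fun i hi => ?_) dvd_rfl ?_ hs
  · rw [pair_dvd hd hm hvw hv hw hi] at hi
    exact h hi
  · intro h2
    exact hm.not_isUnit (hm.irreducible.squarefree m (by rwa [← pow_two]))

theorem nonsq_lin [DecidableEq V] {d : Sym2 V → A V} (hd : GD d) {v w : V} (hvw : v ≠ w) {a b c : ℚ}
    (ha : a ≠ 0) (hb : b ≠ 0) {a' b' c' : ℚ} (h : d s(v, w) = lin a' b' c' v w)
    (hne : ¬ (a' * b = a * b' ∧ a' * c = a * c')) {s : Om V} (hs : s ∈ KK d) :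
    s ^ 2 ≠ ι (lin a b c v w) := by
  have ho := lin_off hvw ha hb (c := c)
  refine nonsq_prime hd ho.prime hvw ?_ ?_ ?_ hs
  · rw [deg_of_pderiv v _ a ha (lin_left hvw a b c)]; omega
  · rw [deg_of_pderiv w _ b hb (lin_right hvw a b c)]; omega
  · rw [h]
    intro h1
    exact hne (lin_dvd hvw ha h1)

/-- the third factor is not a square for distinct vertices -/
theorem nonsq_ff [DecidableEq V] {d : Sym2 V → A V} (hd : GD d) {v w : V} (hvw : v ≠ w) {e : ℚ} (he : 0 < e)
    {s : Om V} (hs : s ∈ KK d) : s ^ 2 ≠ ι (C e * ff (X v) + X v - X w) := by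
  have h1 : pderiv w (C e * ff (X v) + X v - X w : A V) = C (-1) := by
    rw [map_sub, map_add, pderiv_C_mul, pderiv_ff_other (Ne.symm hvw), pderiv_X_self,
      pderiv_X_of_ne hvw, map_neg, map_one]
    ring
  have h2 : degreeOf v (C e * ff (X v) + X v - X w : A V) = 6 := by
    have e1 : (C e * ff (X v) + X v - X w : A V) = C e * ff (X v) + (X v + C (-1) * X w) := by
      rw [map_neg, map_one]; ring
    have h3 : degreeOf v (C e * ff (X v) : A V) = 6 := Dia.deg ⟨e, he, rfl⟩
    have h4 : degreeOf v (X v + C (-1) * X w : A V) = 1 := by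
      refine deg_of_pderiv v _ 1 one_ne_zero ?_
      rw [map_add, pderiv_X_self, pderiv_C_mul, pderiv_X_of_ne (Ne.symm hvw), map_one]
      ring
    rw [e1, deg_add_eq, h3]
    rw [h3, h4]; omega
  refine nonsq_prime hd (prime_lin w _ (-1) (by norm_num) h1) hvw (by rw [h2]; omega)
    (by rw [deg_of_pderiv w _ (-1) (by norm_num) h1]; omega) ?_ hs
  intro h
  have h3 := deg_le_of_dvd (hd.ne _) h v
  rw [h2] at h3
  have h4 := hd.deg_off v w hvw
  omega

/-- a linear polynomial in the variable of one vertex is not a square -/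
theorem nonsq_one [DecidableEq V] {d : Sym2 V → A V} (hd : GD d) (hdv : IsVertexRad d) (v : V) {a c : ℚ}
    (ha : a ≠ 0) {s : Om V} (hs : s ∈ KK d) : s ^ 2 ≠ ι (C a * X v + C c) := by
  have h1 : pderiv v (C a * X v + C c : A V) = C a := by
    rw [map_add, pderiv_C_mul, pderiv_X_self, pderiv_C]; ring
  have hp := prime_lin v _ a ha h1
  refine nonsq hd.toGood hp (fun i hi => ?_) dvd_rfl ?_ hs
  · have h2 : ∀ u, u ∈ i ↔ u = v := by
      intro u
      rw [← hd.mem_iff i _ hp hi u]
      constructor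
      · intro hu
        by_contra hne
        apply hu
        rw [← pderiv_eq_zero_iff, map_add, pderiv_C_mul, pderiv_X_of_ne (Ne.symm hne), pderiv_C]
        ring
      · rintro rfl
        rw [deg_of_pderiv _ _ a ha h1]; omega
    have h3 : i = s(v, v) := by
      apply Sym2.ext
      intro u
      rw [h2, Sym2.mem_iff, or_self]
    rw [h3] at hi
    obtain ⟨e, he, h4⟩ := hdv v
    rw [h4] at hi
    -- evaluate at the root
    obtain ⟨q, hq⟩ := hi
    have h5 := congrArg (eval (fun _ : V => -c / a)) hq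
    have e1 : eval (fun _ : V => -c / a) (C e * ff (X v) : A V) = e * ff (-c / a) := by
      rw [map_mul, map_ff, eval_C, eval_X]
    have e2 : eval (fun _ : V => -c / a) (C a * X v + C c : A V) = 0 := by
      rw [map_add, map_mul, eval_C, eval_X, eval_C]
      field_simp
      ring
    rw [e1, map_mul, e2, zero_mul] at h5
    have h6 : ff (-c / a) < 0 := ff_neg
    rcases mul_eq_zero.1 h5 with h | h
    · exact he.ne' h
    · exact h6.ne h
  · intro h2
    exact hp.not_isUnit (hp.irreducible.squarefree _ (by rwa [← pow_two]))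

end graph

end Pool.Agent.TH729.Gr
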