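import Pool.Agent.TH729.Gr.Vanish
import Pool.Agent.TH729.Gr.Alg

/-!
# The points of the curve over the field of a graph
-/

set_option autoImplicit false

namespace Pool.Agent.TH729.Gr

open MvPolynomial WithZero

variable {V : Type}

/-- the field generated by the square roots -/
noncomputable def KK {I : Type} (d : I → A V) : IntermediateField (F V) (Om V) :=
  IntermediateField.adjoin (F V) (Set.range (r d))

theorem pderiv_swap (v w : V) (p : A V) : pderiv v (pderiv w p) = pderiv w (pderiv v p) := by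
  classical
  have h : ⁅(pderiv v : Derivation ℚ (A V) (A V)), (pderiv w : Derivation ℚ (A V) (A V))⁆ =
      0 := by
    refine MvPolynomial.derivation_ext fun u => ?_
    rw [Derivation.commutator_apply]
    simp only [pderiv_X, Pi.single_apply]
    split_ifs <;> simp
  have h2 := congrArg (fun D => D p) h
  simp only [Derivation.commutator_apply, Derivation.zero_apply] at h2
  exact sub_eq_zero.1 h2

/-- the derivations commute -/
theorem D_comm (v w : V) (x : Om V) : D v (D w x) = D w (D v x) := by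
  have h : ∀ p : A V, ⁅D v, D w⁆ (algebraMap (A V) (Om V) p) = 0 := by
    intro p
    rw [Derivation.commutator_apply]
    show D v (D w (ι p)) - D w (D v (ι p)) = 0
    rw [D_ι, D_ι, D_ι, D_ι, pderiv_swap v w, sub_self]
  have h2 := der_unique (R := ℚ) (S := A V) ⁅D v, D w⁆ h x
  rw [Derivation.commutator_apply] at h2
  exact sub_eq_zero.1 h2

/-- elements with vanishing derivatives are rational -/
theorem const_of_D {I : Type} [DecidableEq I] {d : I → A V} (hd : Good d) {a : Om V}
    (ha : a ∈ KK d) (h : ∀ w, D w a = 0) : ∃ q : ℚ, a = algebraMap ℚ (Om V) q := by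
  classical
  rw [KK, ← Set.image_univ] at ha
  obtain ⟨c, rfl, -⟩ := exists_coord d Set.univ ha
  have h1 : ∀ w S, DF w (c S) + c S * lam d w S = 0 := by
    intro w S
    obtain ⟨c', h2, h3⟩ := D_Φ hd w c
    rw [h w] at h2
    have h4 := linInd hd c' h2.symm
    rw [← h3, h4]; rfl
  have hsupp : c.support ⊆ {∅} := by
    intro S hS
    have hcS := Finsupp.mem_support_iff.1 hS
    rw [Finset.mem_singleton]
    refine parity hd (x := c S) hcS fun π hπ => ?_
    obtain ⟨w, hw⟩ := exists_deg_of_prime hπ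
    have hne : c S ^ 2 * j (dS d S) ≠ 0 := mul_ne_zero (pow_ne_zero 2 hcS) (j_ne (dS_ne hd S))
    have h2 : DF w (c S ^ 2 * j (dS d S)) = 0 := by
      rw [DF_sq hd, h1, mul_zero]
    have h3 := vP_of_DF π hπ w hw hne h2
    have h4 : dS d ∅ = 1 := by rw [dS, Finset.prod_empty]
    rw [h4, map_one, div_one]
    exact h3
  have h5 : Φ d c = k (c ∅) := by
    rw [Φ_apply' d c hsupp, Finset.sum_singleton, rS, Finset.prod_empty, mul_one]
  obtain ⟨q, hq⟩ := exists_rat (c ∅) (fun w => by
    have h6 := h1 w ∅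
    have h7 : lam d w ∅ = 0 := by
      rw [lam, dS, Finset.prod_empty, pderiv_one, map_zero, zero_div]
    rwa [h7, mul_zero, add_zero] at h6)
  exact ⟨q, by rw [h5, hq, k_rat]⟩

theorem ff_neg {x : ℚ} : ff x < 0 := by
  rw [ff]
  have : 0 < (x ^ 2 + 1) * (x ^ 2 + 2) * ((x - 1) ^ 2 + 3) := by positivity
  linarith

theorem map_ff {R S : Type} [CommRing R] [CommRing S] (φ : R →+* S) (x : R) :
    φ (ff x) = ff (φ x) := by
  simp [ff, map_ofNat]

/-- no constant points -/
theorem no_const {a b : Om V} {q q' e : ℚ} (he : 0 < e) (ha : a = algebraMap ℚ (Om V) q)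
    (hb : b = algebraMap ℚ (Om V) q') (hab : b ^ 2 = algebraMap ℚ (Om V) e * ff a) : False := by
  rw [ha, hb, ← map_ff, ← map_mul, ← map_pow] at hab
  have h1 := (algebraMap ℚ (Om V)).injective hab
  have h2 : e * ff q < 0 := mul_neg_of_pos_of_neg he ff_neg
  have h3 : 0 ≤ q' ^ 2 := sq_nonneg q'
  linarith

/-- the derivative of `b² = e f(a)` -/
theorem D_curve {a b : Om V} {e : ℚ} (hab : b ^ 2 = algebraMap ℚ (Om V) e * ff a) (w : V) :
    2 * b * D w b = algebraMap ℚ (Om V) e * ff' a * D w a := by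
  have h1 : D w (b ^ 2) = D w (algebraMap ℚ (Om V) e * ff a) := by rw [hab]
  have h2 : D w (ff a) = ff' a * D w a := by
    have h3 : (ff a : Om V) = Polynomial.aeval a (-((Polynomial.X ^ 2 + 1) *
      (Polynomial.X ^ 2 + 2) * ((Polynomial.X - 1) ^ 2 + 3)) : Polynomial ℚ) := by
      simp [ff, map_ofNat]
    rw [h3, Derivation.map_aeval, smul_eq_mul]
    congr 1
    simp only [Polynomial.derivative_neg, Polynomial.derivative_mul,
      Polynomial.derivative_add, Polynomial.derivative_sub, Polynomial.derivative_pow,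
      Polynomial.derivative_X, Polynomial.derivative_one, Polynomial.derivative_ofNat, map_neg,
      map_mul, map_add, map_sub, map_pow, map_one, map_ofNat, map_zero, Polynomial.aeval_X, ff']
    simp
    ring
  rw [Derivation.leibniz_pow, Derivation.leibniz, Derivation.map_algebraMap, smul_zero, add_zero,
    h2] at h1
  simp only [smul_eq_mul, nsmul_eq_mul] at h1
  push_cast at h1
  linear_combination h1

/-- the pull-backs of the two regular differentials are regular closed forms -/
theorem regForms [DecidableEq V] {d : Sym2 V → A V} (hd : GD d) {a b : Om V} (ha : a ∈ KK d)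
    (hb : b ∈ KK d) {e : ℚ} (he : e ≠ 0) (hab : b ^ 2 = algebraMap ℚ (Om V) e * ff a)
    (hb0 : b ≠ 0) :
    RegForm d (fun v => D v a / b) ∧ RegForm d (fun v => a * (D v a / b)) := by
  have hcl : ∀ v w, D w (D v a / b) = D v (D w a / b) := by
    intro v w
    rw [Derivation.leibniz_div, Derivation.leibniz_div, D_comm v w a]
    have h1 := D_curve hab w
    have h2 := D_curve hab v
    simp only [smul_eq_mul]
    have h3 : D v a * D w b = D w a * D v b := by
      have : 2 * b * (D v a * D w b) = 2 * b * (D w a * D v b) := by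
        linear_combination D v a * h1 - D w a * h2
      exact mul_left_cancel₀ (mul_ne_zero two_ne_zero hb0) this
    rw [h3]
  have ha' : a ∈ IntermediateField.adjoin (F V) (Set.range (r d)) := ha
  have hb' : b ∈ IntermediateField.adjoin (F V) (Set.range (r d)) := hb
  constructor
  · refine ⟨fun v π hπ => ?_, fun v π hπ h0 => ?_, fun v w => ?_, fun v => ?_, hcl⟩
    · exact (reg hd.toGood (vP_rat π hπ) (H_P π hπ v) ha' hb' he hab hb0).1
    · exact (reg hd.toGood (vP_rat π hπ) (H_P' π hπ v h0) ha' hb' he hab hb0).1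
    · exact (reg hd.toGood (vI_rat w) (H_I v w) ha' hb' he hab hb0).1
    · exact (reg hd.toGood (vI_rat v) (H_I' v) ha' hb' he hab hb0).1
  · refine ⟨fun v π hπ => ?_, fun v π hπ h0 => ?_, fun v w => ?_, fun v => ?_, ?_⟩
    · exact (reg hd.toGood (vP_rat π hπ) (H_P π hπ v) ha' hb' he hab hb0).2
    · exact (reg hd.toGood (vP_rat π hπ) (H_P' π hπ v h0) ha' hb' he hab hb0).2
    · exact (reg hd.toGood (vI_rat w) (H_I v w) ha' hb' he hab hb0).2
    · exact (reg hd.toGood (vI_rat v) (H_I' v) ha' hb' he hab hb0).2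
    · intro v w
      show D w (a * (D v a / b)) = D v (a * (D w a / b))
      rw [Derivation.leibniz, Derivation.leibniz, hcl v w]
      simp only [smul_eq_mul]
      ring

/-- the radicand of a vertex -/
def IsVertexRad (d : Sym2 V → A V) : Prop :=
  ∀ v, ∃ e : ℚ, 0 < e ∧ d s(v, v) = C e * ff (X v)

/-- **The points.** If `b² = e f(a)` in the field of the graph, then `a` is one of the
variables. -/
theorem points {d : Sym2 V → A V} (hd : GD d) (hdv : IsVertexRad d) {a b : Om V}
    (ha : a ∈ KK d) (hb : b ∈ KK d) {e : ℚ} (he : 0 < e)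
    (hab : b ^ 2 = algebraMap ℚ (Om V) e * ff a) : ∃ v, a = ι (X v) := by
  classical
  have he0 : algebraMap ℚ (Om V) e ≠ 0 := (_root_.map_ne_zero _).2 he.ne'
  by_cases hall : ∀ w, D w a = 0
  · -- the point would be constant
    exfalso
    obtain ⟨q, hq⟩ := const_of_D hd.toGood ha hall
    obtain ⟨q', hq'⟩ := const_of_D hd.toGood hb (fun w => by
      have h1 := D_curve hab w
      rw [hall w, mul_zero] at h1
      rcases mul_eq_zero.1 h1 with h | h
      · have hb0 : b = 0 := by
          rcases mul_eq_zero.1 h with h | h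
          · exact absurd h two_ne_zero
          · exact h
        rw [hb0, map_zero]
      · exact h)
    exact no_const he hq hq' hab
  push Not at hall
  obtain ⟨v, hv⟩ := hall
  have hb0 : b ≠ 0 := by
    rintro rfl
    have h1 := D_curve hab v
    rw [mul_zero, zero_mul] at h1
    have h2 : ff a = 0 := by
      rw [zero_pow two_ne_zero] at hab
      rcases mul_eq_zero.1 hab.symm with h | h
      · exact absurd h he0
      · exact h
    have h3 : ff' a = 0 := by
      rcases mul_eq_zero.1 h1.symm with h | h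
      · rcases mul_eq_zero.1 h with h | h
        · exact absurd h he0
        · exact h
      · exact absurd h hv
    have h4 := ff_bezout a
    rw [h2, h3, mul_zero, mul_zero, add_zero] at h4
    exact zero_ne_one h4
  obtain ⟨hu, hu'⟩ := regForms hd ha hb he.ne' hab hb0
  obtain ⟨α, β, h1⟩ := form_eq hd hu v
  obtain ⟨γ, δ, h2⟩ := form_eq hd hu' v
  obtain ⟨e', he', hdvv⟩ := hdv v
  set p : A V := C α + C β * X v with hp
  set q : A V := C γ + C δ * X v with hq
  set R : Om V := r d s(v, v) with hR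
  have hd0 := hd.ne s(v, v)
  have hkd : ι (d s(v, v)) ≠ 0 := ι_ne hd0
  have hR0 : R ≠ 0 := by
    intro h
    have := r_sq d s(v, v)
    rw [← hR, h, zero_pow two_ne_zero] at this
    exact hkd this.symm
  rw [map_div₀, k_j, k_j] at h1 h2
  have hp0 : ι p ≠ 0 := by
    intro h
    rw [h, zero_div, zero_mul, div_eq_zero_iff] at h1
    rcases h1 with h | h
    · exact hv h
    · exact hb0 h
  -- `a = q / p`
  have haq : a = ι q / ι p := by
    rw [h1] at h2
    field_simp at h2 ⊢
    have h3 : R * ι (d s(v, v)) ≠ 0 := mul_ne_zero hR0 hkd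
    first
      | exact h2
      | (apply mul_left_cancel₀ h3; linear_combination (ι (d s(v, v))) * h2)
      | linear_combination h2
  -- `D a`
  set Δ : ℚ := α * δ - β * γ with hΔ
  have hDa : D v a = algebraMap ℚ (Om V) Δ / ι p ^ 2 := by
    have hx : ∀ c : ℚ, ι (C c) = algebraMap ℚ (Om V) c := fun c =>
      (IsScalarTower.algebraMap_apply ℚ (A V) (Om V) c).symm
    have hDp : D v (ι p) = algebraMap ℚ (Om V) β := by
      rw [D_ι, hp, map_add, pderiv_C, pderiv_C_mul, pderiv_X_self, zero_add, mul_one, hx]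
    have hDq : D v (ι q) = algebraMap ℚ (Om V) δ := by
      rw [D_ι, hq, map_add, pderiv_C, pderiv_C_mul, pderiv_X_self, zero_add, mul_one, hx]
    rw [haq, Derivation.leibniz_div, hDp, hDq]
    simp only [smul_eq_mul]
    have e1 : ι p * algebraMap ℚ (Om V) δ - ι q * algebraMap ℚ (Om V) β =
        algebraMap ℚ (Om V) Δ := by
      rw [hp, hq, hΔ, map_sub, map_mul, map_mul, map_add, map_add, map_mul, map_mul, hx, hx, hx,
        hx]
      ring
    rw [e1]
    field_simp
  have hΔ0 : Δ ≠ 0 := by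
    intro h
    rw [h, map_zero, zero_div] at hDa
    exact hv hDa
  -- `b`
  have hbR : b = algebraMap ℚ (Om V) Δ / ι p ^ 3 * R := by
    have hRR := r_sq d s(v, v)
    rw [← hR] at hRR
    rw [hDa, ← hRR] at h1
    field_simp at h1 ⊢
    linear_combination -h1
  -- the polynomial identity
  have hpoly : C e * ((q ^ 2 + p ^ 2) * (q ^ 2 + 2 * p ^ 2) * ((q - p) ^ 2 + 3 * p ^ 2)) =
      C Δ ^ 2 * (C e' * (((X v) ^ 2 + 1) * ((X v) ^ 2 + 2) * ((X v - 1) ^ 2 + 3))) := by
    apply ι_inj
    have hx : ∀ c : ℚ, ι (C c) = algebraMap ℚ (Om V) c := fun c =>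
      (IsScalarTower.algebraMap_apply ℚ (A V) (Om V) c).symm
    have hRR := r_sq d s(v, v)
    rw [← hR, hdvv, map_mul, map_ff, hx] at hRR
    have h3 : b ^ 2 * ι p ^ 6 = algebraMap ℚ (Om V) Δ ^ 2 * R ^ 2 := by
      rw [hbR]
      field_simp
    rw [hab, hRR, haq] at h3
    have h4 : ff (ι q / ι p) * ι p ^ 6 = -((ι q ^ 2 + ι p ^ 2) * (ι q ^ 2 + 2 * ι p ^ 2) *
        ((ι q - ι p) ^ 2 + 3 * ι p ^ 2)) := by
      rw [ff]
      field_simp
    have h5 : (ff (ι (X v)) : Om V) = -((ι (X v) ^ 2 + 1) * (ι (X v) ^ 2 + 2) *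
        ((ι (X v) - 1) ^ 2 + 3)) := rfl
    rw [h5, mul_assoc, h4] at h3
    simp only [map_mul, map_add, map_sub, map_pow, map_one, map_ofNat, hx]
    linear_combination -h3
  have hcx : ∀ x : ℂ, (e : ℂ) * (((γ + δ * x) ^ 2 + (α + β * x) ^ 2) *
      ((γ + δ * x) ^ 2 + 2 * (α + β * x) ^ 2) *
      ((γ + δ * x - (α + β * x)) ^ 2 + 3 * (α + β * x) ^ 2)) =
      Δ ^ 2 * (e' * ((x ^ 2 + 1) * (x ^ 2 + 2) * ((x - 1) ^ 2 + 3))) := by
    intro x
    have h3 := congrArg (aeval (fun _ : V => x)) hpoly
    rw [hp, hq] at h3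
    simp only [map_mul, map_add, map_sub, map_pow, map_one, map_ofNat, aeval_C, aeval_X,
      eq_ratCast] at h3
    exact h3
  obtain ⟨hβ, hγ, hδ⟩ := final_alg he he' hΔ hΔ0 hcx
  refine ⟨v, ?_⟩
  have hα : α ≠ 0 := by
    rintro rfl
    apply hΔ0
    rw [hΔ, hβ, hγ]; ring
  rw [haq, hq, hp, hβ, hγ, hδ]
  simp only [map_zero, zero_mul, zero_add, add_zero]
  have hC : ι (C α : A V) ≠ 0 := ι_ne (by rw [Ne, map_eq_zero_iff _ (C_injective V ℚ)]; exact hα)
  rw [map_mul, mul_div_assoc, mul_comm, div_mul_cancel₀]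
  exact hC

end Pool.Agent.TH729.Gr
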