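import Pool.Agent.TH729.Gr.Der

/-!
# Degrees and derivatives of polynomials in several variables
-/

set_option autoImplicit false

namespace Pool.Agent.TH729.Gr

open MvPolynomial

variable {V : Type}

theorem deg_pderiv_le (u w : V) (p : A V) : degreeOf u (pderiv w p) ≤ degreeOf u p := by
  classical
  rw [degreeOf_le_iff]
  intro m hm
  rw [mem_support_iff, coeff_pderiv] at hm
  have h1 : coeff (m + Finsupp.single w 1) p ≠ 0 := fun h => hm (by rw [h, zero_mul])
  have h2 := le_degreeOf_of_mem_support u (mem_support_iff.2 h1)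
  refine le_trans ?_ h2
  simp

theorem deg_pderiv_lt (w : V) (p : A V) (h : pderiv w p ≠ 0) :
    degreeOf w (pderiv w p) + 1 ≤ degreeOf w p := by
  classical
  have key : ∀ m ∈ (pderiv w p).support, m w + 1 ≤ degreeOf w p := by
    intro m hm
    rw [mem_support_iff, coeff_pderiv] at hm
    have h1 : coeff (m + Finsupp.single w 1) p ≠ 0 := fun h => hm (by rw [h, zero_mul])
    have h2 := le_degreeOf_of_mem_support w (mem_support_iff.2 h1)
    simpa using h2
  obtain ⟨m, hm⟩ := (pderiv w p).support.nonempty_of_ne_empty (by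
    rw [Ne, support_eq_empty]; exact h)
  have h0 := key m hm
  have : degreeOf w (pderiv w p) < degreeOf w p := by
    rw [degreeOf_lt_iff (by omega)]
    intro m hm
    exact key m hm
  omega

theorem pderiv_eq_zero_iff (w : V) (p : A V) : pderiv w p = 0 ↔ degreeOf w p = 0 := by
  classical
  constructor
  · intro h
    by_contra hd
    rw [degreeOf_eq_sup] at hd
    have : ∃ m ∈ p.support, m w ≠ 0 := by
      by_contra hcon
      push Not at hcon
      apply hd
      refine Nat.le_zero.1 (Finset.sup_le fun m hm => ?_)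
      rw [hcon m hm]
    obtain ⟨m, hm, hmw⟩ := this
    have h1 := congrArg (coeff (m - Finsupp.single w 1)) h
    rw [coeff_pderiv, coeff_zero] at h1
    have h2 : m - Finsupp.single w 1 + Finsupp.single w 1 = m := by
      refine tsub_add_cancel_of_le ?_
      rw [Finsupp.single_le_iff]
      omega
    rw [h2] at h1
    rcases mul_eq_zero.1 h1 with h3 | h3
    · exact (mem_support_iff.1 hm) h3
    · have h4 : ∀ n : ℕ, (n : ℚ) + 1 ≠ 0 := fun n => by positivity
      exact h4 _ h3
  · intro h
    refine pderiv_eq_zero_of_notMem_vars ?_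
    intro hw
    rw [mem_vars_iff_mem_support] at hw
    obtain ⟨m, hm, hmw⟩ := hw
    have := le_degreeOf_of_mem_support w hm
    rw [h] at this
    rw [Finsupp.mem_support_iff] at hmw
    omega

theorem euler_deg (w : V) (p : A V) (n : ℕ) (hn : 1 ≤ n) (hp : degreeOf w p ≤ n) :
    degreeOf w (X w * pderiv w p - C (n : ℚ) * p) + 1 ≤ n := by
  classical
  have : degreeOf w (X w * pderiv w p - C (n : ℚ) * p) < n := by
    rw [degreeOf_lt_iff (by omega)]
    intro m hm
    rw [mem_support_iff, coeff_sub, coeff_C_mul, mul_comm (X w), coeff_mul_X'] at hm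
    by_contra hmn
    apply hm
    have hmn : n ≤ m w := not_lt.1 hmn
    have hmw : w ∈ m.support := by rw [Finsupp.mem_support_iff]; omega
    rw [if_pos hmw, coeff_pderiv]
    have h2 : m - Finsupp.single w 1 + Finsupp.single w 1 = m := by
      refine tsub_add_cancel_of_le ?_
      rw [Finsupp.single_le_iff]
      omega
    rw [h2]
    by_cases hc : coeff m p = 0
    · rw [hc]; ring
    · have h3 := le_degreeOf_of_mem_support w (mem_support_iff.2 hc)
      have h4 : m w = n := by omega
      rw [Finsupp.tsub_apply, Finsupp.single_eq_same, h4]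
      push_cast [Nat.cast_sub hn]
      ring
  omega

theorem euler_zero (w : V) (p : A V) (hp : degreeOf w p = 0) :
    X w * pderiv w p - C ((0 : ℕ) : ℚ) * p = 0 := by
  rw [(pderiv_eq_zero_iff w p).2 hp]; simp

theorem eq_C_of_deg (p : A V) (h : ∀ w, degreeOf w p = 0) : ∃ c : ℚ, p = C c := by
  classical
  refine ⟨coeff 0 p, ?_⟩
  ext m
  rw [coeff_C]
  split_ifs with hm
  · rw [← hm]
  · by_contra hc
    apply hm
    ext w
    have := le_degreeOf_of_mem_support w (mem_support_iff.2 hc)
    rw [h w] at this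
    simpa using (Nat.le_zero.1 this).symm

theorem exists_deg_of_prime {π : A V} (hπ : Prime π) : ∃ w, degreeOf w π ≠ 0 := by
  by_contra hcon
  push Not at hcon
  obtain ⟨c, rfl⟩ := eq_C_of_deg π hcon
  have hc : c ≠ 0 := by
    rintro rfl
    exact hπ.ne_zero (by simp)
  exact hπ.not_isUnit ((isUnit_iff_ne_zero.2 hc).map C)

theorem deg_le_of_dvd {q p : A V} (hp : p ≠ 0) (h : q ∣ p) (w : V) :
    degreeOf w q ≤ degreeOf w p := by
  obtain ⟨r, rfl⟩ := h
  rw [degreeOf_mul_eq (left_ne_zero_of_mul hp) (right_ne_zero_of_mul hp)]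
  omega

theorem exists_prime_deg (w : V) (a : A V) (ha : a ≠ 0) (h : degreeOf w a ≠ 0) :
    ∃ π, Prime π ∧ π ∣ a ∧ degreeOf w π ≠ 0 := by
  induction a using UniqueFactorizationMonoid.induction_on_prime with
  | h₁ => exact absurd rfl ha
  | h₂ x hx =>
    exfalso
    obtain ⟨y, hy⟩ := hx.exists_right_inv
    have hy0 : y ≠ 0 := by rintro rfl; simp at hy
    have := degreeOf_mul_eq (n := w) ha hy0
    rw [hy, degreeOf_one] at this
    omega
  | h₃ a π ha0 hπ ih =>
    rw [degreeOf_mul_eq hπ.ne_zero ha0] at h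
    by_cases h1 : degreeOf w π = 0
    · obtain ⟨ρ, h2, h3, h4⟩ := ih ha0 (by omega)
      exact ⟨ρ, h2, dvd_mul_of_dvd_right h3 _, h4⟩
    · exact ⟨π, hπ, dvd_mul_right _ _, h1⟩

end Pool.Agent.TH729.Gr
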