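import Pool.Agent.TH729.Gr.Fil

/-!
# Regularity of the pull-backs of the differentials of the hyperelliptic curve
-/

set_option autoImplicit false

namespace Pool.Agent.TH729.Gr

open WithZero

variable {V : Type} {I : Type}

/-- the polynomial `f(x) = -(x² + 1)(x² + 2)((x - 1)² + 3)` -/
def ff {R : Type} [CommRing R] (x : R) : R :=
  -((x ^ 2 + 1) * (x ^ 2 + 2) * ((x - 1) ^ 2 + 3))

open Polynomial in
/-- the polynomial after the substitution `x = c + 1/y` -/
noncomputable def Fc (c : ℚ) : ℚ[X] :=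
  -(((C c * X + 1) ^ 2 + X ^ 2) * ((C c * X + 1) ^ 2 + 2 * X ^ 2) *
    ((C c * X + 1 - X) ^ 2 + 3 * X ^ 2))

theorem aeval_Fc {R : Type} [Field R] [CharZero R] (c : ℚ) (y : R) :
    Polynomial.aeval y (Fc c) = -((((c : R) * y + 1) ^ 2 + y ^ 2) *
      (((c : R) * y + 1) ^ 2 + 2 * y ^ 2) * (((c : R) * y + 1 - y) ^ 2 + 3 * y ^ 2)) := by
  simp [Fc, map_ofNat]

theorem aeval_Fc' {R : Type} [Field R] [CharZero R] (c : ℚ) {y : R} (hy : y ≠ 0) :
    Polynomial.aeval y (Fc c) = y ^ 6 * ff ((c : R) + y⁻¹) := by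
  rw [aeval_Fc, ff]
  field_simp

/-- the derivative of `f` -/
def ff' {R : Type} [CommRing R] (x : R) : R :=
  4 - 28 * x + 18 * x ^ 2 - 28 * x ^ 3 + 10 * x ^ 4 - 6 * x ^ 5

theorem ff_bezout {R : Type} [Field R] [CharZero R] (x : R) :
    (-109 / 338 + 1847 / 1352 * x - 1733 / 2028 * x ^ 2 + 1849 / 4056 * x ^ 3 -
      71 / 1352 * x ^ 4) * ff x +
    (-267 / 676 + 49 / 169 * x - 805 / 2028 * x ^ 2 + 1487 / 8112 * x ^ 3 - 40 / 507 * x ^ 4 +
      71 / 8112 * x ^ 5) * ff' x = 1 := by
  rw [ff, ff']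
  field_simp
  ring

theorem Fc_coprime (c : ℚ) : IsCoprime (Fc c) (Polynomial.derivative (Fc c)) := by
  rw [Polynomial.isCoprime_iff_aeval_ne_zero_of_isAlgClosed ℚ ℂ]
  intro y
  by_contra hcon
  push Not at hcon
  obtain ⟨h1, h2⟩ := hcon
  by_cases hy : y = 0
  · rw [hy, aeval_Fc] at h1
    norm_num at h1
  have h3 : ff ((c : ℂ) + y⁻¹) = 0 := by
    rw [aeval_Fc' c hy] at h1
    rcases mul_eq_zero.1 h1 with h | h
    · exact absurd h (pow_ne_zero 6 hy)
    · exact h
  have h4 : ff' ((c : ℂ) + y⁻¹) = 0 := by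
    have e : y * Polynomial.aeval y (Polynomial.derivative (Fc c)) =
        6 * Polynomial.aeval y (Fc c) - y ^ 5 * ff' ((c : ℂ) + y⁻¹) := by
      rw [aeval_Fc]
      simp only [Fc, Polynomial.derivative_neg, Polynomial.derivative_mul,
        Polynomial.derivative_add, Polynomial.derivative_sub, Polynomial.derivative_pow,
        Polynomial.derivative_X, Polynomial.derivative_one, Polynomial.derivative_C,
        Polynomial.derivative_ofNat, map_neg, map_mul, map_add, map_sub, map_pow, map_one,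
        map_ofNat, map_zero, Polynomial.aeval_X, Polynomial.aeval_C, ff']
      have e1 : (algebraMap ℚ ℂ) c = (c : ℂ) := rfl
      rw [e1]
      simp
      field_simp
      ring
    rw [h2, h1] at e
    have h5 : y ^ 5 * ff' ((c : ℂ) + y⁻¹) = 0 := by linear_combination e
    rcases mul_eq_zero.1 h5 with h | h
    · exact absurd h (pow_ne_zero 5 hy)
    · exact h
  have h5 := ff_bezout ((c : ℂ) + y⁻¹)
  rw [h3, h4] at h5
  norm_num at h5

/-- Regularity: for `b² = e f(a)` the elements `D a / b` and `a D a / b` lie in the filtration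
given by the bound for the derivation `D`. -/
theorem reg [DecidableEq I] {d : I → A V} (hd : Good d) {v : Valuation (F V) ℤᵐ⁰}
    (hv : Triv v) {w : V} {g : ℤᵐ⁰} (hH : H v w g) {a b : Om V}
    (ha : a ∈ IntermediateField.adjoin (F V) (Set.range (r d)))
    (hb : b ∈ IntermediateField.adjoin (F V) (Set.range (r d)))
    {e : ℚ} (he : e ≠ 0) (hab : b ^ 2 = algebraMap ℚ (Om V) e * ff a) (hb0 : b ≠ 0) :
    D w a / b ∈ Fil d v g ∧ a * (D w a / b) ∈ Fil d v g := by
  obtain ⟨c, hac, hint⟩ := exists_c hv a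
  have hcc : (c : Om V) = algebraMap ℚ (Om V) c := rfl
  obtain ⟨c', hc'⟩ : ∃ c', c' = algebraMap ℚ (Om V) c := ⟨_, rfl⟩
  rw [← hc'] at hac hint hcc
  have hac' : a - c' ≠ 0 := sub_ne_zero.2 hac
  obtain ⟨y, hy⟩ : ∃ y, y = (a - c')⁻¹ := ⟨_, rfl⟩
  rw [← hy] at hint
  have hy0 : y ≠ 0 := by rw [hy]; exact inv_ne_zero hac'
  have hay : a = c' + y⁻¹ := by rw [hy, inv_inv]; ring
  obtain ⟨z, hz⟩ : ∃ z, z = b * y ^ 3 := ⟨_, rfl⟩
  have hz0 : z ≠ 0 := by rw [hz]; exact mul_ne_zero hb0 (pow_ne_zero 3 hy0)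
  obtain ⟨e', he'⟩ : ∃ e', e' = algebraMap ℚ (Om V) e := ⟨_, rfl⟩
  have he0 : e' ≠ 0 := by rw [he']; exact (_root_.map_ne_zero _).2 he
  rw [← he'] at hab
  have hzy : z ^ 2 = e' * Polynomial.aeval y (Fc c) := by
    rw [aeval_Fc' c hy0, hcc, ← hay, hz, mul_pow, hab]
    ring
  -- everything is integral
  have hKy : y ∈ IntermediateField.adjoin (F V) (Set.range (r d)) := by
    rw [hy]
    refine inv_mem (sub_mem ha ?_)
    rw [hc', ← k_rat]
    exact IntermediateField.algebraMap_mem _ _
  have hKz : z ∈ IntermediateField.adjoin (F V) (Set.range (r d)) := by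
    rw [hz]; exact mul_mem hb (pow_mem hKy 3)
  have hintq : ∀ q : ℚ, Int v (algebraMap ℚ (Om V) q) := fun q => by
    rw [← k_rat]; exact int_k (hv.le q)
  have hintp : ∀ p : Polynomial ℚ, Int v (Polynomial.aeval y p) := by
    intro p
    induction p using Polynomial.induction_on with
    | C a => rw [Polynomial.aeval_C]; exact hintq a
    | add p q hp hq => rw [map_add]; exact hp.add hq
    | monomial n a h =>
      rw [pow_succ, ← mul_assoc, map_mul, Polynomial.aeval_X]
      exact h.mul hint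
  have hintz : Int v z := by
    refine Int.of_sq ?_
    rw [hzy, he']
    exact (hintq e).mul (hintp _)
  have toFil : ∀ x ∈ IntermediateField.adjoin (F V) (Set.range (r d)), Int v x →
      x ∈ Fil d v 1 := by
    intro x hx hi
    rw [← Set.image_univ] at hx
    obtain ⟨c, rfl, -⟩ := exists_coord d Set.univ hx
    exact ⟨c, rfl, coord_le_one hd hv c hi⟩
  have hyF := toFil y hKy hint
  have hzF := toFil z hKz hintz
  have hDy := Fil.deriv hd hv hH hyF
  have hDz := Fil.deriv hd hv hH hzF
  -- `D y / z` by the Bezout identity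
  obtain ⟨G, W, hGW⟩ := Fc_coprime c
  have hbez : Polynomial.aeval y G * Polynomial.aeval y (Fc c) +
      Polynomial.aeval y W * Polynomial.aeval y (Polynomial.derivative (Fc c)) = 1 := by
    rw [← map_mul, ← map_mul, ← map_add, hGW, map_one]
  have hDD : 2 * z * D w z = e' * Polynomial.aeval y (Polynomial.derivative (Fc c)) * D w y := by
    have h1 : D w (z ^ 2) = D w (e' * Polynomial.aeval y (Fc c)) := by rw [hzy]
    rw [Derivation.leibniz_pow, Derivation.leibniz, he', Derivation.map_algebraMap,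
      smul_zero, add_zero, ← he'] at h1
    have h2 : D w (Polynomial.aeval y (Fc c)) =
        Polynomial.aeval y (Polynomial.derivative (Fc c)) * D w y := by
      have := Derivation.map_aeval (D w) (Fc c) y
      rw [this, smul_eq_mul]
    rw [h2] at h1
    simp only [smul_eq_mul, nsmul_eq_mul] at h1
    push_cast at h1
    linear_combination h1
  have hω : D w y / z = algebraMap ℚ (Om V) (1 / e) *
      (Polynomial.aeval y G * z * D w y + Polynomial.aeval y (2 * W) * D w z) := by
    have h2 : algebraMap ℚ (Om V) (1 / e) = 1 / e' := by rw [map_div₀, map_one, he']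
    rw [h2, map_mul, map_ofNat]
    field_simp
    calc D w y * e' = e' * D w y * (Polynomial.aeval y G * Polynomial.aeval y (Fc c) +
      Polynomial.aeval y W * Polynomial.aeval y (Polynomial.derivative (Fc c))) := by
          rw [hbez, mul_one, mul_comm]
      _ = _ := by linear_combination (-(D w y) * Polynomial.aeval y G) * hzy -
            Polynomial.aeval y W * hDD
  have hωF : D w y / z ∈ Fil d v g := by
    rw [hω, ← k_rat]
    refine Fil.k_mul (hv.le _) (Fil.add ?_ ?_)
    · have := Fil.mul (Fil.mul (Fil.aeval hv hyF G) hzF) hDy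
      rwa [one_mul, one_mul] at this
    · have := Fil.mul (Fil.aeval hv hyF (2 * W)) hDz
      rwa [one_mul] at this
  have hDa : D w a = - (D w y) / y ^ 2 := by
    rw [hay, map_add, hc', Derivation.map_algebraMap, zero_add, Derivation.leibniz_inv]
    simp only [smul_eq_mul]
    field_simp
  have e1 : D w a / b = Polynomial.aeval y (-Polynomial.X : Polynomial ℚ) * (D w y / z) := by
    rw [hDa, hz, map_neg, Polynomial.aeval_X]
    field_simp
  have e2 : a * (D w a / b) = Polynomial.aeval y (-(Polynomial.C c * Polynomial.X + 1) :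
      Polynomial ℚ) * (D w y / z) := by
    rw [e1]
    simp only [map_neg, map_add, map_mul, map_one, Polynomial.aeval_X, Polynomial.aeval_C]
    rw [hay, ← hc']
    field_simp
  constructor
  · rw [e1]
    have := Fil.mul (Fil.aeval hv hyF (-Polynomial.X)) hωF
    rwa [one_mul] at this
  · rw [e2]
    have := Fil.mul (Fil.aeval hv hyF (-(Polynomial.C c * Polynomial.X + 1))) hωF
    rwa [one_mul] at this

end Pool.Agent.TH729.Gr
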