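import Pool.Agent.TH729.Gr.Poly

/-!
# Derivations and valuations of the field of rational functions
-/

set_option autoImplicit false

namespace Pool.Agent.TH729.Gr

open MvPolynomial WithZero

variable {V : Type}

/-! ### Derivations of the field of fractions -/

/-- polynomials as rational functions -/
noncomputable abbrev j : A V →+* F V := algebraMap (A V) (F V)

theorem j_inj : Function.Injective (j (V := V)) := IsFractionRing.injective (A V) (F V)

theorem j_ne {a : A V} (h : a ≠ 0) : j a ≠ 0 := by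
  rw [Ne, map_eq_zero_iff _ j_inj]; exact h

theorem exists_DF (v : V) : ∃ D : Derivation ℚ (F V) (F V), ∀ p : A V,
    D (j p) = j (pderiv v p) := by
  classical
  obtain ⟨D, hD⟩ := exists_der (R := ℚ) (S := A V) (T := F V)
    ((Algebra.linearMap (A V) (F V)).compDer (pderiv v))
  exact ⟨D, fun p => hD p⟩

/-- the derivations `∂/∂x_v` of the field of rational functions -/
noncomputable def DF (v : V) : Derivation ℚ (F V) (F V) := (exists_DF v).choose

theorem DF_j (v : V) (p : A V) : DF v (j p) = j (pderiv v p) := (exists_DF v).choose_spec p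

theorem DF_div (v : V) (s t : A V) (ht : t ≠ 0) :
    DF v (j s / j t) = j (t * pderiv v s - s * pderiv v t) / j t ^ 2 := by
  have ht' := j_ne ht
  rw [Derivation.leibniz_div, DF_j, DF_j, map_sub, map_mul, map_mul, smul_eq_mul, smul_eq_mul,
    smul_eq_mul]
  field_simp

/-- rational functions as elements of the algebraic closure -/
noncomputable abbrev k : F V →+* Om V := algebraMap (F V) (Om V)

theorem k_j (a : A V) : k (j a) = ι a :=
  (IsScalarTower.algebraMap_apply (A V) (F V) (Om V) a).symm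

theorem D_div (v : V) (s t : A V) (ht : t ≠ 0) :
    D v (k (j s / j t)) = k (j (t * pderiv v s - s * pderiv v t) / j t ^ 2) := by
  have ht' : ι t ≠ 0 := by
    rw [← k_j]
    exact (map_ne_zero _).2 (j_ne ht)
  have e1 : k (j s / j t) = ι s / ι t := by rw [map_div₀, k_j, k_j]
  have e2 : k (j (t * pderiv v s - s * pderiv v t) / j t ^ 2) =
      ι (t * pderiv v s - s * pderiv v t) / ι t ^ 2 := by rw [map_div₀, map_pow, k_j, k_j]
  rw [e1, e2, Derivation.leibniz_div, D_ι, D_ι, map_sub, map_mul,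
    map_mul, smul_eq_mul, smul_eq_mul, smul_eq_mul]
  field_simp

theorem exists_frac (ρ : F V) : ∃ s t : A V, t ≠ 0 ∧ IsRelPrime s t ∧ ρ = j s / j t := by
  obtain ⟨s, t, h1, h2⟩ := IsFractionRing.exists_reduced_fraction (A := A V) ρ
  refine ⟨s, t, nonZeroDivisors.coe_ne_zero t, h1, ?_⟩
  rw [← h2, IsFractionRing.mk'_eq_div]

theorem D_k (v : V) (ρ : F V) : D v (k ρ) = k (DF v ρ) := by
  obtain ⟨s, t, ht, -, rfl⟩ := exists_frac ρ
  rw [D_div v s t ht, DF_div v s t ht]

/-! ### Valuations -/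

/-- a valuation from an order function -/
noncomputable def mkVal (o : A V → ℤ) (h1 : o 1 = 0)
    (hmul : ∀ a b, a ≠ 0 → b ≠ 0 → o (a * b) = o a + o b)
    (hadd : ∀ a b, a ≠ 0 → b ≠ 0 → a + b ≠ 0 → o (a + b) ≤ max (o a) (o b)) :
    Valuation (A V) ℤᵐ⁰ := by
  classical exact
  { toFun := fun a => if a = 0 then 0 else exp (o a)
    map_zero' := if_pos rfl
    map_one' := by rw [if_neg one_ne_zero, h1, exp_zero]
    map_mul' := by
      intro a b
      by_cases ha : a = 0
      · simp [ha]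
      by_cases hb : b = 0
      · simp [hb]
      rw [if_neg ha, if_neg hb, if_neg (mul_ne_zero ha hb), hmul a b ha hb, exp_add]
    map_add_le_max' := by
      intro a b
      by_cases ha : a = 0
      · simp [ha]
      by_cases hb : b = 0
      · simp [hb]
      by_cases hab : a + b = 0
      · simp [hab]
      rw [if_neg ha, if_neg hb, if_neg hab]
      rcases le_max_iff.1 (hadd a b ha hb hab) with h | h
      · exact le_max_of_le_left (exp_le_exp.2 h)
      · exact le_max_of_le_right (exp_le_exp.2 h) }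

theorem mkVal_apply (o : A V → ℤ) (h1 hmul hadd) {a : A V} (ha : a ≠ 0) :
    mkVal o h1 hmul hadd a = exp (o a) := by
  classical exact if_neg ha

/-- extension of a valuation to the field of fractions -/
noncomputable def extV (v : Valuation (A V) ℤᵐ⁰) (hv : ∀ a, a ≠ 0 → v a ≠ 0) :
    Valuation (F V) ℤᵐ⁰ :=
  v.extendToLocalization (S := nonZeroDivisors (A V)) (B := F V) (by
    intro a ha
    have h : v a ≠ 0 := hv a (nonZeroDivisors.ne_zero ha)
    exact h)

theorem extV_j (v : Valuation (A V) ℤᵐ⁰) (hv : ∀ a, a ≠ 0 → v a ≠ 0) (a : A V) :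
    extV v hv (j a) = v a := Valuation.extendToLocalization_apply_map_apply _ _ _ _

/-- the valuation of a prime -/
noncomputable def vP (π : A V) (hπ : Prime π) : Valuation (F V) ℤᵐ⁰ :=
  extV (mkVal (fun a => -(multiplicity π a : ℤ)) (by
      have h : multiplicity π (1 : A V) = 0 := multiplicity_eq_zero.2 fun h =>
        hπ.not_isUnit (isUnit_of_dvd_one h)
      simp [h])
    (by
      intro a b ha hb
      rw [multiplicity_mul hπ (FiniteMultiplicity.of_prime_left hπ (mul_ne_zero ha hb))]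
      push_cast
      ring)
    (by
      intro a b ha hb hab
      have fa := FiniteMultiplicity.of_prime_left hπ ha
      have fb := FiniteMultiplicity.of_prime_left hπ hb
      have fab := FiniteMultiplicity.of_prime_left hπ hab
      have h : min (multiplicity π a) (multiplicity π b) ≤ multiplicity π (a + b) := by
        refine fab.le_multiplicity_of_pow_dvd ?_
        refine dvd_add ?_ ?_
        · exact (pow_dvd_pow π (min_le_left _ _)).trans (pow_multiplicity_dvd π a)
        · exact (pow_dvd_pow π (min_le_right _ _)).trans (pow_multiplicity_dvd π b)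
      omega))
    (by
      intro a ha
      rw [mkVal_apply _ _ _ _ ha]
      exact exp_ne_zero)

theorem vP_j (π : A V) (hπ : Prime π) {a : A V} (ha : a ≠ 0) :
    vP π hπ (j a) = exp (-(multiplicity π a : ℤ)) := by
  rw [vP, extV_j, mkVal_apply _ _ _ _ ha]

/-- the valuation at infinity for the variable `w` -/
noncomputable def vI (w : V) : Valuation (F V) ℤᵐ⁰ :=
  extV (mkVal (fun a => (degreeOf w a : ℤ)) (by simp)
    (by
      intro a b ha hb
      rw [degreeOf_mul_eq ha hb]
      push_cast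
      ring)
    (by
      intro a b ha hb hab
      have := degreeOf_add_le w a b
      omega))
    (by
      intro a ha
      rw [mkVal_apply _ _ _ _ ha]
      exact exp_ne_zero)

theorem vI_j (w : V) {a : A V} (ha : a ≠ 0) :
    vI w (j a) = exp (degreeOf w a : ℤ) := by
  rw [vI, extV_j, mkVal_apply _ _ _ _ ha]

/-- the valuations are trivial on the rational numbers -/
theorem vP_rat (π : A V) (hπ : Prime π) (q : ℚ) (hq : q ≠ 0) :
    vP π hπ (algebraMap ℚ (F V) q) = 1 := by
  have h1 : algebraMap ℚ (F V) q = j (C q) :=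
    IsScalarTower.algebraMap_apply ℚ (A V) (F V) q
  have hC : (C q : A V) ≠ 0 := by rw [Ne, map_eq_zero_iff _ (C_injective V ℚ)]; exact hq
  rw [h1, vP_j π hπ hC]
  have : multiplicity π (C q : A V) = 0 := multiplicity_eq_zero.2 fun h =>
    hπ.not_isUnit (isUnit_of_dvd_unit h ((isUnit_iff_ne_zero.2 hq).map C))
  rw [this]; simp

theorem vI_rat (w : V) (q : ℚ) (hq : q ≠ 0) :
    vI w (algebraMap ℚ (F V) q) = 1 := by
  have h1 : algebraMap ℚ (F V) q = j (C q) :=
    IsScalarTower.algebraMap_apply ℚ (A V) (F V) q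
  have hC : (C q : A V) ≠ 0 := by rw [Ne, map_eq_zero_iff _ (C_injective V ℚ)]; exact hq
  rw [h1, vI_j w hC, degreeOf_C]; simp

theorem vP_le_one (π : A V) (hπ : Prime π) (a : A V) : vP π hπ (j a) ≤ 1 := by
  by_cases ha : a = 0
  · rw [ha, map_zero, map_zero]; exact zero_le'
  · rw [vP_j π hπ ha, ← exp_zero, exp_le_exp]; omega

theorem vP_lt_one_iff (π : A V) (hπ : Prime π) (a : A V) : vP π hπ (j a) < 1 ↔ π ∣ a := by
  by_cases ha : a = 0
  · rw [ha, map_zero, map_zero]; simp
  · rw [vP_j π hπ ha, ← exp_zero, exp_lt_exp]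
    rw [← not_iff_not, ← multiplicity_eq_zero]
    omega

theorem vP_eq_one_iff (π : A V) (hπ : Prime π) (a : A V) : vP π hπ (j a) = 1 ↔ ¬ π ∣ a := by
  rw [← vP_lt_one_iff π hπ a, not_lt]
  exact ⟨fun h => h.ge, fun h => le_antisymm (vP_le_one π hπ a) h⟩

theorem vP_of_dvd (π : A V) (hπ : Prime π) {a : A V} (h1 : π ∣ a) (h2 : ¬ π ^ 2 ∣ a) :
    vP π hπ (j a) = exp (-1) := by
  have ha : a ≠ 0 := by rintro rfl; exact h2 (dvd_zero _)
  have : multiplicity π a = 1 := by
    rw [← pow_one π] at h1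
    exact multiplicity_eq_of_dvd_of_not_dvd h1 h2
  rw [vP_j π hπ ha, this]; rfl

/-- `H v D g`: the derivation `D` improves the valuation `v` by `g` (in the squared form) -/
def H (v : Valuation (F V) ℤᵐ⁰) (w : V) (g : ℤᵐ⁰) : Prop :=
  ∀ ρ : F V, v ρ ≤ 1 → v (DF w ρ) ^ 2 ≤ g * v ρ

/-- a reduced fraction which is integral at `π` -/
theorem frac_int (π : A V) (hπ : Prime π) {s t : A V} (hst : IsRelPrime s t)
    (h : vP π hπ (j s / j t) ≤ 1) (ht : t ≠ 0) : vP π hπ (j t) = 1 := by
  rw [vP_eq_one_iff]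
  intro hdvd
  have h1 : ¬ π ∣ s := fun hs => hπ.not_isUnit (hst hs hdvd)
  have h2 : vP π hπ (j s) = 1 := (vP_eq_one_iff π hπ s).2 h1
  have h3 : vP π hπ (j t) < 1 := (vP_lt_one_iff π hπ t).2 hdvd
  rw [map_div₀, h2] at h
  have h4 : vP π hπ (j t) ≠ 0 := (map_ne_zero _).2 (j_ne ht)
  rw [div_le_one₀ (zero_lt_iff.2 h4)] at h
  exact absurd h (not_le.2 h3)

theorem pderiv_pow_dvd (π s : A V) (w : V) (m : ℕ) (h : π ^ (m + 1) ∣ s) :
    π ^ m ∣ pderiv w s := by
  obtain ⟨r, rfl⟩ := h
  rw [pderiv_mul, pderiv_pow, Nat.add_sub_cancel]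
  refine dvd_add ?_ ?_
  · exact dvd_mul_of_dvd_left (dvd_mul_of_dvd_left (dvd_mul_left _ _) _) _
  · exact dvd_mul_of_dvd_left (pow_dvd_pow _ (Nat.le_succ m)) _

theorem pderiv_pow_dvd' (π s : A V) (w : V) (m : ℕ) (h : π ^ m ∣ s) (hw : pderiv w π = 0) :
    π ^ m ∣ pderiv w s := by
  obtain ⟨r, rfl⟩ := h
  rw [pderiv_mul, pderiv_pow, hw, mul_zero, zero_mul, zero_add]
  exact dvd_mul_right _ _

/-- the valuation of a polynomial divisible by a power -/
theorem vP_le_of_dvd (π : A V) (hπ : Prime π) {a : A V} {m : ℕ} (h : π ^ m ∣ a) :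
    vP π hπ (j a) ≤ exp (-(m : ℤ)) := by
  by_cases ha : a = 0
  · rw [ha, map_zero, map_zero]; exact zero_le'
  · rw [vP_j π hπ ha, exp_le_exp]
    have := (FiniteMultiplicity.of_prime_left hπ ha).le_multiplicity_of_pow_dvd h
    omega

/-- the valuation of a derivative at a prime -/
theorem vP_pderiv (π : A V) (hπ : Prime π) (w : V) (s : A V) :
    vP π hπ (j (pderiv w s)) ^ 2 ≤ exp 1 * vP π hπ (j s) := by
  by_cases hs : s = 0
  · rw [hs, map_zero, map_zero, map_zero]; simp
  rw [vP_j π hπ hs]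
  rcases Nat.eq_zero_or_pos (multiplicity π s) with h0 | h0
  · rw [h0]
    have h1 := vP_le_one π hπ (pderiv w s)
    calc vP π hπ (j (pderiv w s)) ^ 2 ≤ 1 := pow_le_one₀ zero_le' h1
      _ ≤ _ := by
        rw [← exp_add, ← exp_zero, exp_le_exp]; omega
  · obtain ⟨m, hm⟩ : ∃ m, multiplicity π s = m + 1 := ⟨multiplicity π s - 1, by omega⟩
    have h1 : π ^ (m + 1) ∣ s := by rw [← hm]; exact pow_multiplicity_dvd π s
    have h2 := vP_le_of_dvd π hπ (pderiv_pow_dvd π s w m h1)
    calc vP π hπ (j (pderiv w s)) ^ 2 ≤ (exp (-(m : ℤ))) ^ 2 := pow_le_pow_left₀ zero_le' h2 2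
      _ ≤ _ := by
        rw [← exp_nsmul, ← exp_add, exp_le_exp, hm]
        simp only [smul_eq_mul, nsmul_eq_mul]
        push_cast
        omega

theorem vP_pderiv' (π : A V) (hπ : Prime π) (w : V) (hw : degreeOf w π = 0) (s : A V) :
    vP π hπ (j (pderiv w s)) ≤ vP π hπ (j s) := by
  by_cases hs : s = 0
  · rw [hs, map_zero]
  rw [vP_j π hπ hs]
  exact vP_le_of_dvd π hπ (pderiv_pow_dvd' π s w _ (pow_multiplicity_dvd π s)
    ((pderiv_eq_zero_iff w π).2 hw))

/-- at a prime every derivation loses at most one half -/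
theorem H_P (π : A V) (hπ : Prime π) (w : V) : H (vP π hπ) w (exp 1) := by
  intro ρ hρ
  obtain ⟨s, t, ht, hst, rfl⟩ := exists_frac ρ
  have h1 := frac_int π hπ hst hρ ht
  have hs1 := vP_le_one π hπ s
  rw [DF_div w s t ht, map_div₀, map_div₀, map_pow, h1, one_pow, div_one, div_one, map_sub,
    map_mul, map_mul]
  have h2 : vP π hπ (j t * j (pderiv w s) - j s * j (pderiv w t)) ≤
      max (vP π hπ (j (pderiv w s))) (vP π hπ (j s)) := by
    refine (Valuation.map_sub _ _ _).trans (max_le_max ?_ ?_)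
    · rw [map_mul, h1, one_mul]
    · rw [map_mul]
      exact mul_le_of_le_one_right' (vP_le_one π hπ _)
  rcases le_max_iff.1 h2 with h3 | h3
  · exact (pow_le_pow_left₀ zero_le' h3 2).trans (vP_pderiv π hπ w s)
  · refine (pow_le_pow_left₀ zero_le' h3 2).trans ?_
    rw [pow_two]
    refine mul_le_mul_left ?_ _
    refine hs1.trans ?_
    rw [← exp_zero, exp_le_exp]; omega

/-- at a prime which does not involve `x_w` the derivation `∂/∂x_w` loses nothing -/
theorem H_P' (π : A V) (hπ : Prime π) (w : V) (hw : degreeOf w π = 0) : H (vP π hπ) w 1 := by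
  intro ρ hρ
  obtain ⟨s, t, ht, hst, rfl⟩ := exists_frac ρ
  have h1 := frac_int π hπ hst hρ ht
  have hs1 := vP_le_one π hπ s
  rw [DF_div w s t ht, map_div₀, map_div₀, map_pow, h1, one_pow, div_one, div_one, map_sub,
    map_mul, map_mul, one_mul]
  have h2 : vP π hπ (j t * j (pderiv w s) - j s * j (pderiv w t)) ≤ vP π hπ (j s) := by
    refine (Valuation.map_sub _ _ _).trans (max_le ?_ ?_)
    · rw [map_mul, h1, one_mul]
      exact vP_pderiv' π hπ w hw s
    · rw [map_mul]
      exact mul_le_of_le_one_right' (vP_le_one π hπ _)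
  calc _ ≤ vP π hπ (j s) ^ 2 := pow_le_pow_left₀ zero_le' h2 2
    _ ≤ vP π hπ (j s) := by
      rw [pow_two]
      exact mul_le_of_le_one_right' hs1

end Pool.Agent.TH729.Gr
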