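import Pool.Agent.TH729.Gr.Val

/-!
# The valuation at infinity, and integrality at all primes
-/

set_option autoImplicit false

namespace Pool.Agent.TH729.Gr

open MvPolynomial WithZero

variable {V : Type}

theorem vI_le {w : V} {a : A V} {n : ℤ} (h : a ≠ 0 → (degreeOf w a : ℤ) ≤ n) :
    vI w (j a) ≤ exp n := by
  by_cases ha : a = 0
  · rw [ha, map_zero, map_zero]; exact zero_le'
  · rw [vI_j w ha, exp_le_exp]
    exact h ha

/-- the degree of the numerator of a derivative, other variable -/
theorem deg_num (u w : V) (s t : A V) :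
    degreeOf w (t * pderiv u s - s * pderiv u t) ≤ degreeOf w s + degreeOf w t := by
  have h1 := degreeOf_mul_le w t (pderiv u s)
  have h2 := degreeOf_mul_le w s (pderiv u t)
  have h3 := deg_pderiv_le w u s
  have h4 := deg_pderiv_le w u t
  have h5 : degreeOf w (t * pderiv u s - s * pderiv u t) ≤
      max (degreeOf w (t * pderiv u s)) (degreeOf w (s * pderiv u t)) := by
    have h := degreeOf_add_le w (t * pderiv u s) (-(s * pderiv u t))
    rw [degreeOf_neg, ← sub_eq_add_neg] at h
    exact h
  omega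

theorem degreeOf_sub_le' (w : V) (a b : A V) :
    degreeOf w (a - b) ≤ max (degreeOf w a) (degreeOf w b) := by
  have h := degreeOf_add_le w a (-b)
  rw [degreeOf_neg, ← sub_eq_add_neg] at h
  exact h

/-- the degree of the numerator of a derivative, same variable -/
theorem deg_num_self (w : V) (s t : A V) (h0 : t * pderiv w s - s * pderiv w t ≠ 0) :
    degreeOf w (t * pderiv w s - s * pderiv w t) + 1 ≤ degreeOf w s + degreeOf w t := by
  have key : ∀ a b : A V, b * pderiv w a ≠ 0 →
      degreeOf w (b * pderiv w a) + 1 ≤ degreeOf w a + degreeOf w b := by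
    intro a b h
    have h1 := degreeOf_mul_le w b (pderiv w a)
    have h2 := deg_pderiv_lt w a (right_ne_zero_of_mul h)
    omega
  have h5 := degreeOf_sub_le' w (t * pderiv w s) (s * pderiv w t)
  by_cases h1 : t * pderiv w s = 0
  · rw [h1, zero_sub] at h0
    have h2 := key t s (neg_ne_zero.1 h0)
    rw [h1, degreeOf_zero] at h5
    rw [h1]
    omega
  · have h2 := key s t h1
    by_cases h3 : s * pderiv w t = 0
    · rw [h3, degreeOf_zero] at h5
      rw [h3]
      omega
    · have h4 := key t s h3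
      omega

/-- equal degrees: the degree drops by two -/
theorem deg_num_eq (w : V) (s t : A V) (h0 : t * pderiv w s - s * pderiv w t ≠ 0)
    (hd : degreeOf w s = degreeOf w t) :
    degreeOf w (t * pderiv w s - s * pderiv w t) + 2 ≤ degreeOf w s + degreeOf w t := by
  set n := degreeOf w t with hn
  by_cases hn0 : n = 0
  · exfalso
    apply h0
    rw [(pderiv_eq_zero_iff w s).2 (by omega), (pderiv_eq_zero_iff w t).2 (by omega)]
    simp
  have hX : (X w : A V) ≠ 0 := X_ne_zero w
  have e : X w * (t * pderiv w s - s * pderiv w t) =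
      t * (X w * pderiv w s - C (n : ℚ) * s) - s * (X w * pderiv w t - C (n : ℚ) * t) := by
    ring
  have h1 := degreeOf_mul_eq (n := w) hX h0
  rw [degreeOf_X_self, e] at h1
  have h2 := euler_deg w s n (by omega) (by omega)
  have h3 := euler_deg w t n (by omega) (by omega)
  have h4 := degreeOf_sub_le' w (t * (X w * pderiv w s - C (n : ℚ) * s))
    (s * (X w * pderiv w t - C (n : ℚ) * t))
  have h5 := degreeOf_mul_le w t (X w * pderiv w s - C (n : ℚ) * s)
  have h6 := degreeOf_mul_le w s (X w * pderiv w t - C (n : ℚ) * t)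
  omega

theorem vI_frac (w : V) {s t : A V} (hs : s ≠ 0) (ht : t ≠ 0) :
    vI w (j s / j t) = exp ((degreeOf w s : ℤ) - degreeOf w t) := by
  rw [map_div₀, vI_j w hs, vI_j w ht, exp_sub]

/-- at infinity for the variable `x_w` the other derivations lose nothing -/
theorem H_I (u w : V) : H (vI w) u 1 := by
  intro ρ hρ
  obtain ⟨s, t, ht, -, rfl⟩ := exists_frac ρ
  by_cases hs : s = 0
  · rw [hs, map_zero, zero_div, map_zero, map_zero]; simp
  have h1 : vI w (DF u (j s / j t)) ≤ vI w (j s / j t) := by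
    rw [DF_div u s t ht, map_div₀, map_pow, vI_frac w hs ht]
    rw [div_le_iff₀ (pow_pos (zero_lt_iff.2 ((map_ne_zero _).2 (j_ne ht))) 2), vI_j w ht,
      ← exp_nsmul, ← exp_add]
    refine vI_le fun _ => ?_
    have := deg_num u w s t
    simp only [nsmul_eq_mul]
    push_cast
    omega
  calc _ ≤ vI w (j s / j t) ^ 2 := pow_le_pow_left₀ zero_le' h1 2
    _ ≤ 1 * vI w (j s / j t) := by
      rw [pow_two, one_mul]
      exact mul_le_of_le_one_right' hρ

/-- at infinity for the variable `x_w` the derivation `∂/∂x_w` gains three halves -/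
theorem H_I' (w : V) : H (vI w) w (exp (-3)) := by
  intro ρ hρ
  obtain ⟨s, t, ht, -, rfl⟩ := exists_frac ρ
  by_cases hs : s = 0
  · rw [hs, map_zero, zero_div, map_zero, map_zero]; simp
  rw [vI_frac w hs ht, ← exp_zero, exp_le_exp] at hρ
  rw [DF_div w s t ht, vI_frac w hs ht]
  by_cases h0 : t * pderiv w s - s * pderiv w t = 0
  · rw [h0, map_zero, zero_div, map_zero]; simp
  have h1 := deg_num_self w s t h0
  rw [map_div₀, map_pow, vI_j w ht, vI_j w h0, ← exp_nsmul, ← exp_sub, ← exp_nsmul, ← exp_add,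
    exp_le_exp]
  simp only [nsmul_eq_mul]
  push_cast
  by_cases hd : degreeOf w s = degreeOf w t
  · have h2 := deg_num_eq w s t h0 hd
    omega
  · omega

/-- a rational function without `x_w` has order zero at the primes which involve `x_w` -/
theorem vP_of_DF (π : A V) (hπ : Prime π) (w : V) (hw : degreeOf w π ≠ 0) {ρ : F V}
    (hρ : ρ ≠ 0) (hD : DF w ρ = 0) : vP π hπ ρ = 1 := by
  obtain ⟨s, t, ht, hst, rfl⟩ := exists_frac ρ
  have hs : s ≠ 0 := by rintro rfl; apply hρ; rw [map_zero, zero_div]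
  rw [DF_div w s t ht, div_eq_zero_iff] at hD
  have h1 : t * pderiv w s = s * pderiv w t := by
    rcases hD with h | h
    · rw [map_eq_zero_iff _ j_inj, sub_eq_zero] at h
      exact h
    · exact absurd h (pow_ne_zero 2 (j_ne ht))
  have hds : degreeOf w s = 0 := by
    have h2 : s ∣ pderiv w s := hst.dvd_of_dvd_mul_left ⟨_, h1⟩
    by_contra hne
    have h3 : pderiv w s ≠ 0 := fun h => hne ((pderiv_eq_zero_iff w s).1 h)
    have h4 := deg_le_of_dvd h3 h2 w
    have h5 := deg_pderiv_lt w s h3
    omega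
  have hdt : degreeOf w t = 0 := by
    have h2 : t ∣ pderiv w t := hst.symm.dvd_of_dvd_mul_left ⟨_, h1.symm⟩
    by_contra hne
    have h3 : pderiv w t ≠ 0 := fun h => hne ((pderiv_eq_zero_iff w t).1 h)
    have h4 := deg_le_of_dvd h3 h2 w
    have h5 := deg_pderiv_lt w t h3
    omega
  have hns : ¬ π ∣ s := fun h => by
    have := deg_le_of_dvd hs h w
    omega
  have hnt : ¬ π ∣ t := fun h => by
    have := deg_le_of_dvd ht h w
    omega
  rw [map_div₀, (vP_eq_one_iff π hπ s).2 hns, (vP_eq_one_iff π hπ t).2 hnt, div_one]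

/-- integral at all primes implies polynomial -/
theorem exists_poly (ρ : F V) (h : ∀ π (hπ : Prime π), vP π hπ ρ ≤ 1) : ∃ p : A V, ρ = j p := by
  obtain ⟨s, t, ht, hst, rfl⟩ := exists_frac ρ
  have hu : IsUnit t := by
    by_contra hu
    obtain ⟨π, h1, h2⟩ := WfDvdMonoid.exists_irreducible_factor hu ht
    have hπ := UniqueFactorizationMonoid.irreducible_iff_prime.1 h1
    have h3 := frac_int π hπ hst (h π hπ) ht
    rw [vP_eq_one_iff] at h3
    exact h3 h2
  obtain ⟨r, hr⟩ := hu.exists_right_inv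
  refine ⟨s * r, ?_⟩
  rw [div_eq_iff (j_ne ht), ← map_mul, mul_assoc, mul_comm r t, hr, mul_one]

/-- the constants -/
theorem exists_rat (ρ : F V) (h : ∀ w, DF w ρ = 0) : ∃ q : ℚ, ρ = algebraMap ℚ (F V) q := by
  by_cases h0 : ρ = 0
  · exact ⟨0, by rw [h0, map_zero]⟩
  obtain ⟨p, hp⟩ := exists_poly ρ (fun π hπ => by
    obtain ⟨w, hw⟩ := exists_deg_of_prime hπ
    exact (vP_of_DF π hπ w hw h0 (h w)).le)
  obtain ⟨c, hc⟩ := eq_C_of_deg p (fun w => by
    rw [← pderiv_eq_zero_iff]
    have := h w
    rw [hp, DF_j, map_eq_zero_iff _ j_inj] at this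
    exact this)
  refine ⟨c, ?_⟩
  rw [hp, hc]
  exact (IsScalarTower.algebraMap_apply ℚ (A V) (F V) c).symm

end Pool.Agent.TH729.Gr
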