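import Pool.Agent.TH729.Gr.Reg

/-!
# The regular differentials of the field of a graph
-/

set_option autoImplicit false

namespace Pool.Agent.TH729.Gr

open MvPolynomial WithZero

variable {V : Type}

/-- the radicands of a graph: one for each vertex, and one for each unordered pair -/
structure GD (d : Sym2 V → A V) : Prop extends Good d where
  mem_iff : ∀ i π, Prime π → π ∣ d i → ∀ u, degreeOf u π ≠ 0 ↔ u ∈ i
  deg_diag : ∀ v, degreeOf v (d s(v, v)) = 6
  deg_off : ∀ v w, v ≠ w → degreeOf v (d s(v, w)) ≤ 1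
  deg_not : ∀ i u, u ∉ i → degreeOf u (d i) = 0

/-- a regular closed differential form `∑ u_v dx_v` -/
structure RegForm (d : Sym2 V → A V) (u : V → Om V) : Prop where
  prime : ∀ v π (hπ : Prime π), u v ∈ Fil d (vP π hπ) (exp 1)
  prime' : ∀ v π (hπ : Prime π), degreeOf v π = 0 → u v ∈ Fil d (vP π hπ) 1
  inf : ∀ v w, u v ∈ Fil d (vI w) 1
  inf' : ∀ v, u v ∈ Fil d (vI v) (exp (-3))
  closed : ∀ v w, D w (u v) = D v (u w)

theorem deg_dS {I : Type} {d : I → A V} (hd : Good d) (w : V) (S : Finset I) :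
    degreeOf w (dS d S) = ∑ i ∈ S, degreeOf w (d i) := by
  rw [dS, degreeOf_prod_eq _ _ fun i _ => hd.ne i]

theorem sq_le_exp_one {x : ℤᵐ⁰} (h : x ^ 2 ≤ exp 1) : x ≤ 1 := by
  by_cases hx : x = 0
  · rw [hx]; exact zero_le'
  · rw [← exp_log hx] at h ⊢
    rw [← exp_nsmul, exp_le_exp] at h
    rw [← exp_zero, exp_le_exp]
    simp only [nsmul_eq_mul] at h
    push_cast at h
    omega

theorem sq_mul_ne {x : ℤᵐ⁰} (hx : x ≠ 0) : x ^ 2 * exp (-1) ≠ 1 := by
  rw [← exp_log hx, ← exp_nsmul, ← exp_add, ← exp_zero, Ne, exp_inj]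
  simp only [nsmul_eq_mul]
  push_cast
  omega

section

variable [DecidableEq V] {d : Sym2 V → A V} {u : V → Om V} {c : V → (Finset (Sym2 V) →₀ F V)}

/-- the members of `S` which contain `v` -/
def with_ (v : V) (S : Finset (Sym2 V)) : Finset (Sym2 V) := S.filter (v ∈ ·)

/-- the members of `S` which do not contain `v` -/
def without (v : V) (S : Finset (Sym2 V)) : Finset (Sym2 V) := S.filter (¬ v ∈ ·)

theorem dS_split (v : V) (S : Finset (Sym2 V)) :
    dS d S = dS d (with_ v S) * dS d (without v S) := by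
  rw [dS, dS, dS, with_, without, Finset.prod_filter_mul_prod_filter_not]

/-- the coordinates times the radicands at `v` are polynomials -/
theorem exists_q (hd : GD d) (hu : RegForm d u) (hc : ∀ v, u v = Φ d (c v)) (v : V)
    (S : Finset (Sym2 V)) : ∃ q : A V, j q = c v S * j (dS d (with_ v S)) := by
  classical
  suffices key : ∀ π (hπ : Prime π), vP π hπ (c v S * j (dS d (with_ v S))) ≤ 1 by
    obtain ⟨q, hq⟩ := exists_poly _ key
    exact ⟨q, hq.symm⟩
  intro π hπ
  have h1 := hu.prime v π hπ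
  rw [hc v] at h1
  have h1 := Fil.coord hd.toGood h1 S
  by_cases hex : ∃ i ∈ S, π ∣ d i
  · obtain ⟨i, hi, hdi⟩ := hex
    have hS := vP_dS_exp hd.toGood hπ hi hdi
    by_cases hvi : v ∈ i
    · -- `i` contains `v`
      have hw : vP π hπ (j (dS d (with_ v S))) = exp (-1) :=
        vP_dS_exp hd.toGood hπ (Finset.mem_filter.2 ⟨hi, hvi⟩) hdi
      rw [map_mul, map_pow, hS] at h1
      rw [map_mul, hw]
      by_cases h0 : vP π hπ (c v S) = 0
      · rw [h0, zero_mul]; exact zero_le'
      · rw [← exp_log h0] at h1 ⊢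
        rw [← exp_nsmul, ← exp_add, exp_le_exp] at h1
        rw [← exp_add, ← exp_zero, exp_le_exp]
        simp only [nsmul_eq_mul] at h1
        push_cast at h1
        omega
    · -- `i` does not contain `v`
      have hdeg : degreeOf v π = 0 := by
        by_contra h
        exact hvi ((hd.mem_iff i π hπ hdi v).1 h)
      have h2 := hu.prime' v π hπ hdeg
      rw [hc v] at h2
      have h2 := Fil.coord hd.toGood h2 S
      rw [map_mul, map_pow, hS] at h2
      have hw : vP π hπ (j (dS d (with_ v S))) = 1 := by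
        refine vP_dS_one d hπ fun i' hi' h' => hvi ?_
        rw [hd.unique π hπ i i' hdi h']
        exact (Finset.mem_filter.1 hi').2
      rw [map_mul, hw, mul_one]
      by_cases h0 : vP π hπ (c v S) = 0
      · rw [h0]; exact zero_le'
      · rw [← exp_log h0] at h2 ⊢
        rw [← exp_nsmul, ← exp_add, ← exp_zero, exp_le_exp] at h2
        rw [← exp_zero, exp_le_exp]
        simp only [nsmul_eq_mul] at h2
        push_cast at h2
        omega
  · push Not at hex
    have hS := vP_dS_one d hπ hex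
    have hw : vP π hπ (j (dS d (with_ v S))) = 1 :=
      vP_dS_one d hπ fun i' hi' => hex i' (Finset.mem_filter.1 hi').1
    rw [map_mul, map_pow, hS, mul_one] at h1
    rw [map_mul, hw, mul_one]
    exact sq_le_exp_one h1

/-- the degree in another variable -/
theorem deg_other (hd : GD d) (hu : RegForm d u) (hc : ∀ v, u v = Φ d (c v)) {v w : V}
    {S : Finset (Sym2 V)} (hne : c v S ≠ 0) :
    degreeOf w (dS d (without v S)) ≤ degreeOf w (dS d (with_ v S)) := by
  obtain ⟨q, hq⟩ := exists_q hd hu hc v S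
  have hw0 := dS_ne hd.toGood (with_ v S)
  have hw1 := dS_ne hd.toGood (without v S)
  have hq0 : q ≠ 0 := by
    rintro rfl
    rw [map_zero] at hq
    exact mul_ne_zero hne (j_ne hw0) hq.symm
  have h1 := hu.inf v w
  rw [hc v] at h1
  have h1 := Fil.coord hd.toGood h1 S
  have h2 : vI w (c v S ^ 2 * j (dS d S)) * vI w (j (dS d (with_ v S))) =
      vI w (j q) ^ 2 * vI w (j (dS d (without v S))) := by
    rw [← Valuation.map_pow (vI w), ← Valuation.map_mul (vI w), ← Valuation.map_mul (vI w), hq,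
      dS_split v S, map_mul j]
    congr 1; ring
  rw [vI_j w hq0, vI_j w hw0, vI_j w hw1, ← exp_nsmul, ← exp_add] at h2
  have h3 : vI w (c v S ^ 2 * j (dS d S)) * exp ((degreeOf w (dS d (with_ v S)) : ℕ) : ℤ) ≤
      exp ((degreeOf w (dS d (with_ v S)) : ℕ) : ℤ) := by
    calc _ ≤ 1 * _ := mul_le_mul_left h1 _
      _ = _ := one_mul _
  rw [h2, exp_le_exp] at h3
  simp only [nsmul_eq_mul] at h3
  push_cast at h3
  omega

/-- the degree in the variable `x_v` -/
theorem deg_self (hd : GD d) (hu : RegForm d u) (hc : ∀ v, u v = Φ d (c v)) {v : V}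
    {S : Finset (Sym2 V)} (hne : c v S ≠ 0) {q : A V}
    (hq : j q = c v S * j (dS d (with_ v S))) :
    2 * degreeOf v q + 3 ≤ degreeOf v (dS d (with_ v S)) := by
  have hw0 := dS_ne hd.toGood (with_ v S)
  have hw1 := dS_ne hd.toGood (without v S)
  have hq0 : q ≠ 0 := by
    rintro rfl
    rw [map_zero] at hq
    exact mul_ne_zero hne (j_ne hw0) hq.symm
  have h1 := hu.inf' v
  rw [hc v] at h1
  have h1 := Fil.coord hd.toGood h1 S
  have h2 : vI v (c v S ^ 2 * j (dS d S)) * vI v (j (dS d (with_ v S))) =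
      vI v (j q) ^ 2 * vI v (j (dS d (without v S))) := by
    rw [← Valuation.map_pow (vI v), ← Valuation.map_mul (vI v), ← Valuation.map_mul (vI v), hq,
      dS_split v S, map_mul j]
    congr 1; ring
  rw [vI_j v hq0, vI_j v hw0, vI_j v hw1, ← exp_nsmul, ← exp_add] at h2
  have h3 : vI v (c v S ^ 2 * j (dS d S)) * exp ((degreeOf v (dS d (with_ v S)) : ℕ) : ℤ) ≤
      exp (-3 + ((degreeOf v (dS d (with_ v S)) : ℕ) : ℤ)) := by
    rw [exp_add]
    exact mul_le_mul_left h1 _
  rw [h2, exp_le_exp] at h3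
  simp only [nsmul_eq_mul] at h3
  push_cast at h3
  omega

theorem deg_with (hd : GD d) {v w : V} (hvw : w ≠ v) (S : Finset (Sym2 V)) :
    degreeOf w (dS d (with_ v S)) ≤ 1 := by
  rw [deg_dS hd.toGood]
  have h1 : ∀ i ∈ with_ v S, degreeOf w (d i) ≤ if i = s(v, w) then 1 else 0 := by
    intro i hi
    have hvi : v ∈ i := (Finset.mem_filter.1 hi).2
    split_ifs with h
    · rw [h, Sym2.eq_swap]
      exact hd.deg_off w v hvw
    · rw [Nat.le_zero]
      refine hd.deg_not i w fun hwi => h ?_
      exact (Sym2.mem_and_mem_iff (Ne.symm hvw)).1 ⟨hvi, hwi⟩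
  refine (Finset.sum_le_sum h1).trans ?_
  rw [Finset.sum_ite_eq']
  split_ifs <;> omega

omit [DecidableEq V] in
/-- the derivative of a term -/
theorem D_term {I : Type} {d : I → A V} (hd : Good d) (w : V) (S : Finset I) (a : F V) :
    D w (k a * rS d S) = k (DF w a + a * lam d w S) * rS d S := by
  rw [Derivation.leibniz, D_k, D_rS hd, smul_eq_mul, smul_eq_mul, map_add, map_mul]
  ring

/-- the derivative of an element in coordinates -/
theorem D_Φ {I : Type} [DecidableEq I] {d : I → A V} (hd : Good d) (w : V)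
    (c : Finset I →₀ F V) : ∃ c' : Finset I →₀ F V, D w (Φ d c) = Φ d c' ∧
      ∀ S, c' S = DF w (c S) + c S * lam d w S := by
  classical
  refine ⟨Finsupp.onFinset c.support (fun S => DF w (c S) + c S * lam d w S) ?_, ?_, ?_⟩
  · intro S hS
    rw [Finsupp.mem_support_iff]
    intro h0
    apply hS
    rw [h0, map_zero, zero_mul, add_zero]
  · rw [Φ_apply' d _ Finsupp.support_onFinset_subset, Φ_apply, map_sum]
    exact Finset.sum_congr rfl fun S _ => D_term hd w S (c S)
  · intro S; rfl

omit [DecidableEq V] in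
theorem DF_sq {I : Type} {d : I → A V} (hd : Good d) (w : V) (S : Finset I) (a : F V) :
    DF w (a ^ 2 * j (dS d S)) = 2 * (a * j (dS d S)) * (DF w a + a * lam d w S) := by
  have hds := j_ne (dS_ne hd S)
  rw [Derivation.leibniz, Derivation.leibniz_pow, DF_j, lam]
  simp only [smul_eq_mul, nsmul_eq_mul]
  push_cast
  field_simp
  ring

/-- only the vertex term remains -/
theorem only_vertex (hd : GD d) (hu : RegForm d u) (hc : ∀ v, u v = Φ d (c v)) {v : V}
    {S : Finset (Sym2 V)} (hne : c v S ≠ 0) :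
    S = {s(v, v)} ∧ ∀ w, w ≠ v → DF w (c v S ^ 2 * j (dS d S)) = 0 := by
  classical
  -- all other components vanish
  have hother : ∀ w, w ≠ v → c w S = 0 := by
    intro w hwv
    by_contra hw
    obtain ⟨q, hq⟩ := exists_q hd hu hc w S
    have h1 := deg_self hd hu hc hw hq
    have h2 := deg_other hd hu hc (w := w) hne
    have h3 := deg_with hd hwv S
    have h4 : degreeOf w (dS d (with_ w S)) ≤ degreeOf w (dS d S) := by
      rw [dS_split w S, degreeOf_mul_eq (dS_ne hd.toGood _) (dS_ne hd.toGood _)]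
      omega
    rw [dS_split v S, degreeOf_mul_eq (dS_ne hd.toGood _) (dS_ne hd.toGood _)] at h4
    omega
  have hD : ∀ w, w ≠ v → DF w (c v S ^ 2 * j (dS d S)) = 0 := by
    intro w hwv
    obtain ⟨c₁, h1, h1'⟩ := D_Φ hd.toGood w (c v)
    obtain ⟨c₂, h2, h2'⟩ := D_Φ hd.toGood v (c w)
    have h3 := hu.closed v w
    rw [hc v, hc w, h1, h2] at h3
    have h4 := Φ_inj hd.toGood h3
    have h5 : c₁ S = 0 := by
      rw [h4, h2', hother w hwv, map_zero, zero_mul, add_zero]
    rw [DF_sq hd.toGood, ← h1', h5, mul_zero]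
  refine ⟨?_, hD⟩
  have hsub : S ⊆ {s(v, v)} := by
    intro i hi
    rw [Finset.mem_singleton]
    by_contra hiv
    -- another vertex of `i`
    obtain ⟨w, hwi, hwv⟩ : ∃ w ∈ i, w ≠ v := by
      by_contra hcon
      push Not at hcon
      apply hiv
      induction i with
      | _ x y =>
        rw [hcon x (Sym2.mem_mk_left x y), hcon y (Sym2.mem_mk_right x y)]
    obtain ⟨π, hπ, hdi⟩ := hd.nonunit i
    have hdeg : degreeOf w π ≠ 0 := (hd.mem_iff i π hπ hdi w).2 hwi
    have h1 := vP_of_DF π hπ w hdeg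
      (mul_ne_zero (pow_ne_zero 2 hne) (j_ne (dS_ne hd.toGood S))) (hD w hwv)
    rw [map_mul, map_pow, vP_dS_exp hd.toGood hπ hi hdi] at h1
    exact sq_mul_ne ((_root_.map_ne_zero _).2 hne) h1
  rcases Finset.subset_singleton_iff.1 hsub with h | h
  · exfalso
    obtain ⟨q, hq⟩ := exists_q hd hu hc v S
    have h1 := deg_self hd hu hc hne hq
    rw [h] at h1
    simp [with_, dS] at h1
  · exact h

/-- polynomials of degree one in one variable -/
theorem linear_form (q : A V) (v : V) (h1 : degreeOf v q ≤ 1) (h2 : ∀ w, w ≠ v → degreeOf w q = 0) :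
    ∃ α β : ℚ, q = C α + C β * X v := by
  classical
  refine ⟨coeff 0 q, coeff (Finsupp.single v 1) q, ?_⟩
  ext m
  rw [coeff_add, coeff_C, coeff_C_mul, coeff_X']
  by_cases hm : coeff m q = 0
  · rw [hm]
    split_ifs with h3 h4 h4
    · exfalso
      rw [← h3] at h4
      have := DFunLike.congr_fun h4 v
      simp at this
    · rw [h3, hm]; simp
    · rw [h4, hm]; simp
    · simp
  · have hle := fun w => le_degreeOf_of_mem_support w (mem_support_iff.2 hm)
    have hm' : m = Finsupp.single v (m v) := by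
      ext w
      rw [Finsupp.single_apply]
      split_ifs with h
      · rw [h]
      · have := hle w
        rw [h2 w (Ne.symm h)] at this
        omega
    have hv := hle v
    rcases Nat.eq_zero_or_pos (m v) with h | h
    · rw [h, Finsupp.single_zero] at hm'
      rw [hm']
      simp
    · have h5 : m v = 1 := by omega
      rw [h5] at hm'
      rw [hm']
      have : ¬ (0 : V →₀ ℕ) = Finsupp.single v 1 := by
        intro h
        have := DFunLike.congr_fun h v
        simp at this
      simp [this]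

/-- **The regular closed forms.** -/
theorem form_eq (hd : GD d) (hu : RegForm d u) (v : V) :
    ∃ α β : ℚ, u v = k (j (C α + C β * X v) / j (d s(v, v))) * r d s(v, v) := by
  classical
  have hex : ∀ v, ∃ c : Finset (Sym2 V) →₀ F V, u v = Φ d c := fun v => by
    obtain ⟨c, hc, -⟩ := hu.inf v v
    exact ⟨c, hc⟩
  choose c hc using hex
  -- the only term
  have hsupp : (c v).support ⊆ {{s(v, v)}} := by
    intro S hS
    rw [Finset.mem_singleton]
    exact (only_vertex hd hu hc (Finsupp.mem_support_iff.1 hS)).1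
  have hΦ : u v = k (c v {s(v, v)}) * r d s(v, v) := by
    rw [hc v, Φ_apply' d _ hsupp, Finset.sum_singleton, rS, Finset.prod_singleton]
  by_cases h0 : c v {s(v, v)} = 0
  · refine ⟨0, 0, ?_⟩
    rw [hΦ, h0]
    simp
  obtain ⟨q, hq⟩ := exists_q hd hu hc v {s(v, v)}
  have hw : with_ v {s(v, v)} = {s(v, v)} := by
    rw [with_, Finset.filter_singleton, if_pos (Sym2.mem_mk_left v v)]
  have hds : dS d {s(v, v)} = d s(v, v) := by rw [dS, Finset.prod_singleton]
  have h1 := deg_self hd hu hc h0 hq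
  rw [hw, hds] at hq h1
  rw [hd.deg_diag v] at h1
  have hdv := hd.ne s(v, v)
  have hq0 : q ≠ 0 := by
    rintro rfl
    rw [map_zero] at hq
    exact mul_ne_zero h0 (j_ne hdv) hq.symm
  obtain ⟨α, β, hαβ⟩ := linear_form q v (by omega) (by
    intro w hwv
    have h2 := (only_vertex hd hu hc h0).2 w hwv
    rw [hds] at h2
    have h3 : pderiv w (d s(v, v)) = 0 := by
      rw [pderiv_eq_zero_iff]
      refine hd.deg_not _ w ?_
      rw [Sym2.mem_iff]
      push Not
      exact ⟨hwv, hwv⟩
    have h4 : DF w (j (q ^ 2)) = 0 := by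
      have e : j (q ^ 2) = (c v {s(v, v)} ^ 2 * j (d s(v, v))) * j (d s(v, v)) := by
        rw [map_pow, hq]; ring
      rw [e, Derivation.leibniz, h2, DF_j, h3, map_zero, smul_zero, smul_zero, add_zero]
    rw [DF_j, map_eq_zero_iff _ j_inj, pderiv_pow] at h4
    rw [← pderiv_eq_zero_iff]
    rcases mul_eq_zero.1 h4 with h | h
    · exfalso
      rcases mul_eq_zero.1 h with h | h
      · norm_num at h
      · simp only [Nat.add_one_sub_one, pow_one] at h
        exact hq0 h
    · exact h)
  refine ⟨α, β, ?_⟩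
  rw [← hαβ, hq, mul_div_assoc, div_self (j_ne hdv), mul_one]
  exact hΦ

end

end Pool.Agent.TH729.Gr
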